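import Mathlib
import Pool.Agent.Helper6.LehmerBasic

/-!
Counting Lehmer numbers, part 1: the part of a number made of its small prime factors, and the
basic inequalities for Lehmer numbers.
-/

namespace Pool.Agent.Helper6.LehmerCount

open Finset Pool.Agent.Helper6.Lehmer

/-- product of the prime factors of `n` below `H` -/
def sm (H n : ℕ) : ℕ := ∏ p ∈ n.primeFactors with p < H, p

/-- product of the prime factors of `n` that are at least `H` -/
def lg (H n : ℕ) : ℕ := ∏ p ∈ n.primeFactors with ¬ p < H, p

theorem sm_mul_lg {n : ℕ} (hn : Squarefree n) (H : ℕ) : sm H n * lg H n = n := by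
  unfold sm lg
  rw [Finset.prod_filter_mul_prod_filter_not]
  exact Nat.prod_primeFactors_of_squarefree hn

theorem sm_dvd {n : ℕ} (H : ℕ) : sm H n ∣ n := by
  unfold sm
  exact (Finset.prod_dvd_prod_of_subset _ _ _ (Finset.filter_subset _ _)).trans
    (Nat.prod_primeFactors_dvd n)

theorem sm_pos (H n : ℕ) : 0 < sm H n :=
  Finset.prod_pos (fun p hp => (Nat.prime_of_mem_primeFactors (mem_filter.mp hp).1).pos)

theorem lg_pos (H n : ℕ) : 0 < lg H n :=
  Finset.prod_pos (fun p hp => (Nat.prime_of_mem_primeFactors (mem_filter.mp hp).1).pos)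

theorem primeFactors_prod_filter (n : ℕ) (P : ℕ → Prop) [DecidablePred P] :
    (∏ p ∈ n.primeFactors with P p, p).primeFactors = n.primeFactors.filter P := by
  apply Nat.primeFactors_prod
  intro p hp
  exact Nat.prime_of_mem_primeFactors (mem_filter.mp hp).1

theorem primeFactors_sm (H n : ℕ) : (sm H n).primeFactors = n.primeFactors.filter (fun p => p < H) :=
  primeFactors_prod_filter n _

theorem primeFactors_lg (H n : ℕ) :
    (lg H n).primeFactors = n.primeFactors.filter (fun p => ¬ p < H) :=
  primeFactors_prod_filter n _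

theorem sm_zero (n : ℕ) : sm 0 n = 1 := by
  unfold sm
  simp

theorem sm_succ (H n : ℕ) : sm (H + 1) n = sm H n * (if H ∈ n.primeFactors then H else 1) := by
  unfold sm
  have : n.primeFactors.filter (fun p => p < H + 1) =
      if H ∈ n.primeFactors then insert H (n.primeFactors.filter (fun p => p < H)) else
        n.primeFactors.filter (fun p => p < H) := by
    split_ifs with h
    · ext p
      simp only [mem_filter, mem_insert]
      constructor
      · rintro ⟨h1, h2⟩
        rcases Nat.lt_succ_iff_lt_or_eq.mp h2 with h3 | h3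
        · exact Or.inr ⟨h1, h3⟩
        · exact Or.inl h3
      · rintro (rfl | ⟨h1, h2⟩)
        · exact ⟨h, by omega⟩
        · exact ⟨h1, by omega⟩
    · ext p
      simp only [mem_filter]
      constructor
      · rintro ⟨h1, h2⟩
        refine ⟨h1, ?_⟩
        rcases Nat.lt_succ_iff_lt_or_eq.mp h2 with h3 | h3
        · exact h3
        · subst h3; exact absurd h1 h
      · rintro ⟨h1, h2⟩
        exact ⟨h1, by omega⟩
  rw [this]
  split_ifs with h
  · rw [Finset.prod_insert (by simp), mul_comm]
  · rw [mul_one]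

theorem sm_eq_self {H n : ℕ} (hn : Squarefree n) (h : n < H) : sm H n = n := by
  unfold sm
  rw [Finset.filter_true_of_mem]
  · exact Nat.prod_primeFactors_of_squarefree hn
  · intro p hp
    exact lt_of_le_of_lt (Nat.le_of_mem_primeFactors hp) h

theorem sm_mono {n H H' : ℕ} (h : H ≤ H') : sm H n ≤ sm H' n := by
  unfold sm
  apply Nat.le_of_dvd
  · exact sm_pos H' n
  · apply Finset.prod_dvd_prod_of_subset
    intro p hp
    rw [mem_filter] at hp ⊢
    exact ⟨hp.1, by omega⟩

theorem sm_mul {a b : ℕ} (hab : a.Coprime b) (H : ℕ) : sm H (a * b) = sm H a * sm H b := by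
  unfold sm
  rw [hab.primeFactors_mul, Finset.filter_union, Finset.prod_union]
  exact Finset.disjoint_filter_filter hab.disjoint_primeFactors

theorem sm_squarefree (H n : ℕ) : Squarefree (sm H n) := by
  unfold sm
  have h := Finset.squarefree_prod_of_pairwise_isCoprime (s := n.primeFactors.filter (fun p => p < H))
    (f := fun p => p) ?_ ?_
  · exact h
  · intro p hp q hq hpq
    rw [Finset.mem_coe, mem_filter] at hp hq
    rw [Function.onFun, ← Nat.coprime_iff_isRelPrime]
    exact (Nat.coprime_primes (Nat.prime_of_mem_primeFactors hp.1)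
      (Nat.prime_of_mem_primeFactors hq.1)).mpr hpq
  · intro p hp
    rw [mem_filter] at hp
    exact (Nat.prime_of_mem_primeFactors hp.1).squarefree

/-- If all prime factors of the squarefree number `m` are below `H`, then `sm H m = m`. -/
theorem sm_eq_self' {H m : ℕ} (hm : Squarefree m) (h : ∀ p ∈ m.primeFactors, p < H) : sm H m = m := by
  unfold sm
  rw [Finset.filter_true_of_mem h]
  exact Nat.prod_primeFactors_of_squarefree hm

theorem sm_eq_one {H m : ℕ} (h : ∀ p ∈ m.primeFactors, ¬ p < H) : sm H m = 1 := by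
  unfold sm
  rw [Finset.filter_false_of_mem h]
  simp

theorem totient_squarefree {m : ℕ} (hm : Squarefree m) : m.totient = ∏ p ∈ m.primeFactors, (p - 1) := by
  have h0 : 0 < m := Nat.pos_of_ne_zero hm.ne_zero
  rw [Nat.totient_eq_div_primeFactors_mul, Nat.prod_primeFactors_of_squarefree hm,
    Nat.div_self h0, one_mul]

/-- Weierstrass' inequality. -/
theorem weierstrass (S : Finset ℕ) (p : ℕ) (hS : ∀ q ∈ S, p ≤ q) :
    p * ∏ q ∈ S, q ≤ p * ∏ q ∈ S, (q - 1) + #S * ∏ q ∈ S, q := by
  induction S using Finset.induction_on with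
  | empty => simp
  | @insert a S ha ih =>
    have ih' := ih (fun q hq => hS q (mem_insert_of_mem hq))
    have hpa := hS a (mem_insert_self a S)
    rw [Finset.prod_insert ha, Finset.prod_insert ha, Finset.card_insert_of_notMem ha]
    have h1 : ∏ q ∈ S, (q - 1) ≤ ∏ q ∈ S, q := Finset.prod_le_prod' (fun q _ => Nat.sub_le q 1)
    rcases Nat.eq_zero_or_pos a with h0 | h0
    · subst h0; simp
    · obtain ⟨b, rfl⟩ : ∃ b, a = b + 1 := ⟨a - 1, by omega⟩
      simp only [Nat.add_sub_cancel]
      nlinarith [Nat.zero_le (∏ q ∈ S, q)]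

/-- a Lehmer number with its index -/
structure Idx (n k : ℕ) : Prop where
  lehmer : IsLehmer n
  eq : n = k * n.totient + 1

theorem exists_idx {n : ℕ} (h : IsLehmer n) : ∃ k, Idx n k := by
  obtain ⟨k, hk⟩ := h.dvd
  refine ⟨k, h, ?_⟩
  have := h.one_lt
  rw [mul_comm] at hk
  omega

theorem Idx.two_le {n k : ℕ} (h : Idx n k) : 2 ≤ k := by
  by_contra hk
  have h1 := h.lehmer.one_lt
  have h2 := h.eq
  have h3 : n.totient < n - 1 := by
    have h4 := Nat.totient_lt n h1
    rcases Nat.lt_or_ge n.totient (n - 1) with h5 | h5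
    · exact h5
    · exfalso
      have h6 : n.totient = n - 1 := by omega
      exact h.lehmer.not_prime ((Nat.totient_eq_iff_prime (by omega)).mp h6)
  have h4 : k = 0 ∨ k = 1 := by omega
  rcases h4 with rfl | rfl
  · omega
  · omega

/-- A proper divisor `d` of a Lehmer number has `d < k φ(d)`. -/
theorem Idx.lt_mul_totient {n k d : ℕ} (h : Idx n k) (hd : d ∣ n) (hdn : d < n) :
    d < k * d.totient := by
  obtain ⟨e, he⟩ := hd
  have hsq := h.lehmer.squarefree
  have h1 := h.lehmer.one_lt
  have hd0 : 0 < d := by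
    rcases Nat.eq_zero_or_pos d with h0 | h0
    · subst h0; omega
    · exact h0
  have he1 : 1 < e := by
    by_contra hcon
    have : e = 0 ∨ e = 1 := by omega
    rcases this with rfl | rfl <;> omega
  have hcop : d.Coprime e := by
    rw [he] at hsq
    exact Nat.coprime_of_squarefree_mul hsq
  have h2 := h.eq
  have h3 : n.totient = d.totient * e.totient := by rw [he, Nat.totient_mul hcop]
  have h4 := Nat.totient_lt e he1
  have hk := h.two_le
  by_contra hcon
  rw [not_lt] at hcon
  rw [h3] at h2
  have h5 : k * (d.totient * e.totient) = (k * d.totient) * e.totient := by ring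
  rw [h5, he] at h2
  have h6 : (k * d.totient) * e.totient ≤ d * (e - 1) :=
    Nat.mul_le_mul hcon (by omega)
  obtain ⟨f, rfl⟩ : ∃ f, e = f + 1 := ⟨e - 1, by omega⟩
  simp only [Nat.add_sub_cancel] at h6
  have h7 : d = 1 := by nlinarith
  subst h7
  simp at hcon
  omega

/-- The basic inequality for the small part of a Lehmer number. -/
theorem Idx.basic {n k H : ℕ} (h : Idx n k) :
    k * (sm H n).totient * H * lg H n < sm H n * H * lg H n +
      (n.primeFactors.card) * (k * (sm H n).totient) * lg H n ∨ H = 0 := by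
  rcases Nat.eq_zero_or_pos H with h0 | h0
  · exact Or.inr h0
  left
  have hsq := h.lehmer.squarefree
  have hmul := sm_mul_lg hsq H
  have hcop : (sm H n).Coprime (lg H n) := by
    have := hsq
    rw [← hmul] at this
    exact Nat.coprime_of_squarefree_mul this
  have hlgsq : Squarefree (lg H n) := by
    have := hsq
    rw [← hmul] at this
    exact this.squarefree_of_dvd (Dvd.intro_left _ rfl)
  have h1 := h.eq
  have h2 : n.totient = (sm H n).totient * (lg H n).totient := by
    conv_lhs => rw [← hmul]
    exact Nat.totient_mul hcop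
  have h3 : (lg H n).totient = ∏ q ∈ n.primeFactors with ¬ q < H, (q - 1) := by
    rw [totient_squarefree hlgsq, primeFactors_lg]
  have h4 := weierstrass (n.primeFactors.filter (fun q => ¬ q < H)) H
    (fun q hq => by rw [mem_filter] at hq; omega)
  rw [← h3] at h4
  change H * lg H n ≤ H * (lg H n).totient + _ * lg H n at h4
  have h5 : #(n.primeFactors.filter (fun q => ¬ q < H)) ≤ n.primeFactors.card :=
    Finset.card_filter_le _ _
  have h6 : k * (sm H n).totient * (lg H n).totient < sm H n * lg H n := by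
    rw [hmul]
    calc k * (sm H n).totient * (lg H n).totient = k * n.totient := by rw [h2]; ring
      _ < n := by omega
  obtain ⟨a, ha⟩ : ∃ a, a = k * (sm H n).totient := ⟨_, rfl⟩
  rw [← ha] at h6 ⊢
  have h7 : H * lg H n ≤ H * (lg H n).totient + n.primeFactors.card * lg H n :=
    h4.trans (Nat.add_le_add_left (Nat.mul_le_mul_right _ h5) _)
  calc a * H * lg H n = a * (H * lg H n) := by ring
    _ ≤ a * (H * (lg H n).totient + n.primeFactors.card * lg H n) := Nat.mul_le_mul_left _ h7
    _ = H * (a * (lg H n).totient) + n.primeFactors.card * a * lg H n := by ring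
    _ < H * (sm H n * lg H n) + n.primeFactors.card * a * lg H n :=
        Nat.add_lt_add_right (Nat.mul_lt_mul_of_pos_left h6 h0) _
    _ = _ := by ring

/-- The small part `m` of a Lehmer number satisfies `k φ(m) H < m H + ω(n) k φ(m)`. -/
theorem Idx.basic' {n k H : ℕ} (h : Idx n k) (hH : 0 < H) :
    k * (sm H n).totient * H < sm H n * H + n.primeFactors.card * (k * (sm H n).totient) := by
  rcases h.basic (H := H) with h1 | h1
  · have h2 := lg_pos H n
    have h3 : (k * (sm H n).totient * H) * lg H n <
        (sm H n * H + n.primeFactors.card * (k * (sm H n).totient)) * lg H n := by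
      calc (k * (sm H n).totient * H) * lg H n < _ := h1
        _ = _ := by ring
    exact Nat.lt_of_mul_lt_mul_right h3
  · omega

theorem Idx.sm_lt {n k p : ℕ} (h : Idx n k) (hp : p ∈ n.primeFactors) {H : ℕ} (hpH : H ≤ p) :
    sm H n < n := by
  have hsq := h.lehmer.squarefree
  have hmul := sm_mul_lg hsq H
  have h1 : p ∣ lg H n := by
    unfold lg
    apply Finset.dvd_prod_of_mem (fun p => p)
    rw [mem_filter]
    exact ⟨hp, by omega⟩
  have h2 : p ≤ lg H n := Nat.le_of_dvd (lg_pos H n) h1
  have h3 := (Nat.prime_of_mem_primeFactors hp).two_le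
  have h4 := sm_pos H n
  calc sm H n < sm H n * lg H n := by nlinarith
    _ = n := hmul

/-- Every prime factor `p` of a Lehmer number is at most `2 ω(n)` times the product of the smaller
ones. -/
theorem Idx.prime_le {n k p : ℕ} (h : Idx n k) (hp : p ∈ n.primeFactors) :
    p < 2 * n.primeFactors.card * sm p n := by
  have hpp := Nat.prime_of_mem_primeFactors hp
  have h1 := h.basic' (H := p) hpp.pos
  have h2 := h.lt_mul_totient (sm_dvd p) (h.sm_lt hp le_rfl)
  obtain ⟨a, ha⟩ : ∃ a, a = k * (sm p n).totient := ⟨_, rfl⟩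
  rw [← ha] at h1 h2
  obtain ⟨m, hm⟩ : ∃ m, m = sm p n := ⟨_, rfl⟩
  rw [← hm] at h1 h2 ⊢
  obtain ⟨K, hK⟩ : ∃ K, K = n.primeFactors.card := ⟨_, rfl⟩
  rw [← hK] at h1 ⊢
  have hm0 : 0 < m := by rw [hm]; exact sm_pos _ _
  -- a * p < m * p + K * a, a ≥ m + 1
  by_contra hcon
  rw [not_lt] at hcon
  -- p ≥ 2 K m
  have h3 : a * p < m * p + K * a := h1
  -- (a - m) p < K a
  have h4 : (m + 1) * p ≤ a * p := Nat.mul_le_mul_right _ h2
  obtain ⟨c, rfl⟩ : ∃ c, a = m + 1 + c := ⟨a - (m + 1), by omega⟩
  have h5 : (1 + c) * p < K * (m + 1 + c) := by nlinarith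
  have h6 : (1 + c) * (2 * K * m) ≤ (1 + c) * p := Nat.mul_le_mul_left _ hcon
  have h7 : K * (m + 1 + c) ≤ (1 + c) * (2 * K * m) := by
    have h8 : m + 1 + c ≤ (1 + c) * (2 * m) := by nlinarith
    calc K * (m + 1 + c) ≤ K * ((1 + c) * (2 * m)) := Nat.mul_le_mul_left _ h8
      _ = _ := by ring
  omega

end Pool.Agent.Helper6.LehmerCount
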