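import Mathlib
import Pool.Agent.Helper6.LehmerCount.Basic

/-!
Counting Lehmer numbers, part 2: dense divisors, uniqueness, residue classes.
-/

namespace Pool.Agent.Helper6.LehmerCount

open Finset Pool.Agent.Helper6.Lehmer

/-- The small part of a Lehmer number has a divisor in every short interval. -/
theorem Idx.dense {n k L : ℕ} (h : Idx n k) (hL : 2 * n.primeFactors.card ≤ L) (H : ℕ) :
    ∀ Y, 1 ≤ Y → Y < L * sm H n → ∃ d, d ∣ sm H n ∧ d ≤ Y ∧ Y < L * d := by
  induction H with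
  | zero =>
    intro Y hY hYL
    rw [sm_zero] at hYL ⊢
    exact ⟨1, dvd_rfl, hY, hYL⟩
  | succ H ih =>
    intro Y hY hYL
    rw [sm_succ] at hYL ⊢
    by_cases hp : H ∈ n.primeFactors
    · rw [if_pos hp] at hYL ⊢
      have hpp := Nat.prime_of_mem_primeFactors hp
      rcases Nat.lt_or_ge Y (L * sm H n) with h1 | h1
      · obtain ⟨d, hd1, hd2, hd3⟩ := ih Y hY h1
        exact ⟨d, hd1.mul_right _, hd2, hd3⟩
      · have h2 : H < L * sm H n :=
          lt_of_lt_of_le (h.prime_le hp) (Nat.mul_le_mul_right _ hL)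
        have h3 : 1 ≤ Y / H := (Nat.one_le_div_iff hpp.pos).mpr (by omega)
        have h4 : Y / H < L * sm H n := by
          rw [Nat.div_lt_iff_lt_mul hpp.pos]
          calc Y < L * (sm H n * H) := hYL
            _ = L * sm H n * H := by ring
        obtain ⟨d, hd1, hd2, hd3⟩ := ih (Y / H) h3 h4
        refine ⟨d * H, Nat.mul_dvd_mul_right hd1 H, ?_, ?_⟩
        · calc d * H ≤ Y / H * H := Nat.mul_le_mul_right _ hd2
            _ ≤ Y := Nat.div_mul_le_self Y H
        · rw [Nat.div_lt_iff_lt_mul hpp.pos] at hd3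
          calc Y < L * d * H := hd3
            _ = L * (d * H) := by ring
    · rw [if_neg hp, mul_one] at hYL ⊢
      exact ih Y hY hYL

theorem Idx.dense' {n k L : ℕ} (h : Idx n k) (hL : 2 * n.primeFactors.card ≤ L) {Y : ℕ}
    (hY : 1 ≤ Y) (hYn : Y < L * n) : ∃ d, d ∣ n ∧ d ≤ Y ∧ Y < L * d := by
  have h1 := h.dense hL (n + 1) Y hY
  rw [sm_eq_self h.lehmer.squarefree (Nat.lt_succ_self n)] at h1
  exact h1 hYn

theorem ratio_inj {r r' : ℕ} (hr : Squarefree r) (hr' : Squarefree r')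
    (h : r.totient * r' = r'.totient * r) : r = r' := by
  have key : ∀ u u' : ℕ, 0 < u → u.Coprime u' → u.totient * u' = u'.totient * u → u = 1 := by
    intro u u' hu hcop heq
    have h1 : u ∣ u.totient * u' := ⟨u'.totient, by rw [heq]; ring⟩
    have h2 : u ∣ u.totient := hcop.dvd_of_dvd_mul_right h1
    by_contra hne
    have h3 := Nat.totient_lt u (by omega)
    have h4 := Nat.le_of_dvd (Nat.totient_pos.mpr hu) h2
    omega
  have hr0 : 0 < r := Nat.pos_of_ne_zero hr.ne_zero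
  have hr0' : 0 < r' := Nat.pos_of_ne_zero hr'.ne_zero
  obtain ⟨g, hg⟩ : ∃ g, g = Nat.gcd r r' := ⟨_, rfl⟩
  have hg0 : 0 < g := by rw [hg]; exact Nat.gcd_pos_of_pos_left _ hr0
  obtain ⟨u, hu⟩ : g ∣ r := by rw [hg]; exact Nat.gcd_dvd_left _ _
  obtain ⟨u', hu'⟩ : g ∣ r' := by rw [hg]; exact Nat.gcd_dvd_right _ _
  have hcop : u.Coprime u' := by
    have h1 : g * Nat.gcd u u' = g * 1 := by
      rw [mul_one, ← Nat.gcd_mul_left, ← hu, ← hu', ← hg]
    exact Nat.eq_of_mul_eq_mul_left hg0 h1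
  have hgu : g.Coprime u := by
    rw [hu] at hr
    exact Nat.coprime_of_squarefree_mul hr
  have hgu' : g.Coprime u' := by
    rw [hu'] at hr'
    exact Nat.coprime_of_squarefree_mul hr'
  have hu0 : 0 < u := by
    rcases Nat.eq_zero_or_pos u with h0 | h0
    · subst h0; omega
    · exact h0
  have hu0' : 0 < u' := by
    rcases Nat.eq_zero_or_pos u' with h0 | h0
    · subst h0; omega
    · exact h0
  rw [hu, hu', Nat.totient_mul hgu, Nat.totient_mul hgu'] at h
  have h2 : u.totient * u' = u'.totient * u := by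
    have h3 : (g.totient * g) * (u.totient * u') = (g.totient * g) * (u'.totient * u) := by
      calc (g.totient * g) * (u.totient * u') = g.totient * u.totient * (g * u') := by ring
        _ = g.totient * u'.totient * (g * u) := h
        _ = _ := by ring
    exact Nat.eq_of_mul_eq_mul_left (Nat.mul_pos (Nat.totient_pos.mpr hg0) hg0) h3
  have e1 := key u u' hu0 hcop h2
  have e2 := key u' u hu0' hcop.symm h2.symm
  rw [hu, hu', e1, e2]

theorem unique_aux {A w H R L r r' : ℕ} (hr0 : 0 < r)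
    (hR : r ≤ R) (hR' : r' ≤ R) (hLR : L * R ^ 2 ≤ H)
    (h1 : w * r < A * r.totient) (h2 : A * r.totient * H < w * r * H + L * (w * r))
    (h3 : w * r' < A * r'.totient)
    (hlt : r'.totient * r + 1 ≤ r.totient * r') : False := by
  have hwA : w < A := by
    have h4 : w * r < A * r := lt_of_lt_of_le h1 (Nat.mul_le_mul_left _ (Nat.totient_le r))
    exact Nat.lt_of_mul_lt_mul_right h4
  have h5 : A * r.totient * H * r' ≤ (w * r * H + L * (w * r)) * r' := Nat.mul_le_mul_right _ h2.le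
  have h6 : A * (r'.totient * r + 1) * H ≤ A * (r.totient * r') * H :=
    Nat.mul_le_mul_right _ (Nat.mul_le_mul_left _ hlt)
  have h7 : w * r' * r * H ≤ A * r'.totient * r * H :=
    Nat.mul_le_mul_right _ (Nat.mul_le_mul_right _ h3.le)
  have h8 : A * H ≤ L * (w * r * r') := by nlinarith
  have h9 : r * r' ≤ R ^ 2 := by rw [sq]; exact Nat.mul_le_mul hR hR'
  have h10 : L * (w * r * r') ≤ w * H := by
    calc L * (w * r * r') = w * (L * (r * r')) := by ring
      _ ≤ w * (L * R ^ 2) := Nat.mul_le_mul_left _ (Nat.mul_le_mul_left _ h9)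
      _ ≤ w * H := Nat.mul_le_mul_left _ hLR
  have h11 : A * H ≤ w * H := h8.trans h10
  rcases Nat.eq_zero_or_pos H with h0 | h0
  · subst h0
    simp only [mul_zero, zero_add] at h2 h5
    have h12 : L * R ^ 2 = 0 := Nat.le_zero.mp hLR
    have h13 : 0 < R := lt_of_lt_of_le hr0 hR
    have h14 : L = 0 := by
      rcases Nat.mul_eq_zero.mp h12 with h | h
      · exact h
      · have := pow_pos h13 2; omega
    subst h14
    omega
  · have := Nat.le_of_mul_le_mul_right h11 h0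
    omega

theorem unique_r {A w H R L r r' : ℕ} (hr : Squarefree r) (hr' : Squarefree r')
    (hR : r ≤ R) (hR' : r' ≤ R) (hLR : L * R ^ 2 ≤ H)
    (h1 : w * r < A * r.totient) (h2 : A * r.totient * H < w * r * H + L * (w * r))
    (h3 : w * r' < A * r'.totient) (h4 : A * r'.totient * H < w * r' * H + L * (w * r')) :
    r = r' := by
  have hr0 : 0 < r := Nat.pos_of_ne_zero hr.ne_zero
  have hr0' : 0 < r' := Nat.pos_of_ne_zero hr'.ne_zero
  apply ratio_inj hr hr'
  rcases lt_trichotomy (r.totient * r') (r'.totient * r) with h | h | h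
  · exact (unique_aux (r := r') (r' := r) hr0' hR' hR hLR h3 h4 h1 h).elim
  · exact h
  · exact (unique_aux hr0 hR hR' hLR h1 h2 h3 h).elim

theorem card_le_of_modEq {S : Finset ℕ} {X q : ℕ} (hX : ∀ n ∈ S, n ≤ X)
    (hmod : ∀ n ∈ S, ∀ n' ∈ S, n ≡ n' [MOD q]) : #S ≤ X / q + 1 := by
  have h1 : #(S.image (fun n => n / q)) = #S := by
    apply Finset.card_image_of_injOn
    intro n hn n' hn' h
    simp only at h
    have h2 := hmod n hn n' hn'
    rw [← Nat.div_add_mod n q, ← Nat.div_add_mod n' q, h, h2]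
  rw [← h1]
  have h2 : S.image (fun n => n / q) ⊆ range (X / q + 1) := by
    intro y hy
    rw [Finset.mem_image] at hy
    obtain ⟨n, hn, rfl⟩ := hy
    rw [mem_range, Nat.lt_succ_iff]
    exact Nat.div_le_div_right (hX n hn)
  calc #(S.image (fun n => n / q)) ≤ #(range (X / q + 1)) := Finset.card_le_card h2
    _ = X / q + 1 := by simp

theorem coprime_of_dvd {n D F : ℕ} (hn : IsLehmer n) (hD : D ∣ n) (hF : F ∣ n.totient) :
    D.Coprime F := by
  have h1 : F ∣ n - 1 := hF.trans hn.dvd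
  have h2 : (n - 1).Coprime n := by
    have := hn.one_lt
    obtain ⟨m, rfl⟩ : ∃ m, n = m + 1 := ⟨n - 1, by omega⟩
    simp
  exact (Nat.Coprime.coprime_dvd_left h1 (h2.coprime_dvd_right hD)).symm

theorem modEq_of_dvd {n n' D F : ℕ} (hn : IsLehmer n) (hn' : IsLehmer n') (hD : D ∣ n) (hD' : D ∣ n')
    (hF : F ∣ n.totient) (hF' : F ∣ n'.totient) : n ≡ n' [MOD D * F] := by
  have hcop := coprime_of_dvd hn hD hF
  rw [← Nat.modEq_and_modEq_iff_modEq_mul hcop]
  constructor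
  · exact ((Nat.modEq_zero_iff_dvd.mpr hD).trans (Nat.modEq_zero_iff_dvd.mpr hD').symm)
  · have h1 : 1 ≡ n [MOD F] := (Nat.modEq_iff_dvd' hn.one_lt.le).mpr (hF.trans hn.dvd)
    have h2 : 1 ≡ n' [MOD F] := (Nat.modEq_iff_dvd' hn'.one_lt.le).mpr (hF'.trans hn'.dvd)
    exact h1.symm.trans h2

/-- `sm` inequality with a simple error term. -/
theorem Idx.basic2 {n k H L : ℕ} (h : Idx n k) (hL : 2 * n.primeFactors.card ≤ L) (hH : L ≤ H)
    (hH0 : 0 < H) :
    k * (sm H n).totient * H < sm H n * H + L * sm H n := by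
  have h1 := h.basic' hH0
  obtain ⟨a, ha⟩ : ∃ a, a = k * (sm H n).totient := ⟨_, rfl⟩
  obtain ⟨m, hm⟩ : ∃ m, m = sm H n := ⟨_, rfl⟩
  obtain ⟨K, hK⟩ : ∃ K, K = n.primeFactors.card := ⟨_, rfl⟩
  rw [← ha, ← hm, ← hK] at h1
  rw [← ha, ← hm]
  rw [← hK] at hL
  -- a H < m H + K a, 2 K ≤ L ≤ H
  have h2 : a ≤ 2 * m := by
    by_contra hcon
    rw [not_le] at hcon
    -- a > 2 m : a H < m H + K a ≤ m H + (H / 2) a
    have h3 : 2 * K * a ≤ H * a := Nat.mul_le_mul_right _ (hL.trans hH)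
    have h4 : 2 * m * H < a * H := Nat.mul_lt_mul_of_pos_right hcon hH0
    nlinarith
  have h3 : K * a ≤ L * m := by
    calc K * a ≤ K * (2 * m) := Nat.mul_le_mul_left _ h2
      _ = 2 * K * m := by ring
      _ ≤ L * m := Nat.mul_le_mul_right _ hL
  omega

/-- sum of inverse squares -/
theorem sum_inv_sq (V : Finset ℕ) (c : ℝ) (hc : 0 < c) (hV : ∀ v ∈ V, 1 ≤ v ∧ c ≤ (v : ℝ)) :
    ∑ v ∈ V, 1 / (v : ℝ) ^ 2 ≤ 2 / c := by
  classical
  obtain ⟨m, hm⟩ : ∃ m : ℕ, m = ⌈c⌉₊ := ⟨_, rfl⟩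
  have hm1 : 1 ≤ m := by rw [hm]; exact Nat.one_le_ceil_iff.mpr hc
  have hcm : c ≤ m := by rw [hm]; exact Nat.le_ceil c
  have hm1' : (1 : ℝ) ≤ m := by exact_mod_cast hm1
  have key : ∀ N : ℕ, m ≤ N → ∑ v ∈ Ico m N, 1 / (v : ℝ) ^ 2 ≤
      1 / ((m : ℝ) - 1 / 2) - 1 / ((N : ℝ) - 1 / 2) := by
    intro N hN
    induction N, hN using Nat.le_induction with
    | base => simp
    | succ N hN ih =>
      rw [Finset.sum_Ico_succ_top hN]
      have hN1 : (1 : ℝ) ≤ N := hm1'.trans (by exact_mod_cast hN)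
      have h1 : 1 / (N : ℝ) ^ 2 ≤ 1 / ((N : ℝ) - 1 / 2) - 1 / ((N : ℝ) + 1 / 2) := by
        have h2 : 1 / ((N : ℝ) - 1 / 2) - 1 / ((N : ℝ) + 1 / 2) = 1 / ((N : ℝ) ^ 2 - 1 / 4) := by
          have h3 : ((N : ℝ) - 1 / 2) ≠ 0 := by linarith
          have h4 : ((N : ℝ) + 1 / 2) ≠ 0 := by linarith
          have h5 : ((N : ℝ) ^ 2 - 1 / 4) ≠ 0 := by nlinarith
          rw [div_sub_div _ _ h3 h4, div_eq_div_iff (mul_ne_zero h3 h4) h5]
          ring
        rw [h2]
        apply one_div_le_one_div_of_le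
        · nlinarith
        · linarith
      push_cast
      have h6 : (N : ℝ) + 1 - 1 / 2 = (N : ℝ) + 1 / 2 := by ring
      rw [h6]
      linarith
  obtain ⟨N, hN⟩ : ∃ N : ℕ, m ≤ N ∧ V ⊆ Ico m N := by
    refine ⟨m + (∑ v ∈ V, v) + 1, by omega, ?_⟩
    intro v hv
    rw [mem_Ico]
    constructor
    · rw [hm]
      exact Nat.ceil_le.mpr (hV v hv).2
    · have : v ≤ ∑ v ∈ V, v := Finset.single_le_sum (f := fun v => v) (fun _ _ => Nat.zero_le _) hv
      omega
  calc ∑ v ∈ V, 1 / (v : ℝ) ^ 2 ≤ ∑ v ∈ Ico m N, 1 / (v : ℝ) ^ 2 :=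
        Finset.sum_le_sum_of_subset_of_nonneg hN.2 (fun v _ _ => by positivity)
    _ ≤ 1 / ((m : ℝ) - 1 / 2) - 1 / ((N : ℝ) - 1 / 2) := key N hN.1
    _ ≤ 1 / ((m : ℝ) - 1 / 2) := by
        have : (1 : ℝ) ≤ N := hm1'.trans (by exact_mod_cast hN.1)
        have : 0 ≤ 1 / ((N : ℝ) - 1 / 2) := by
          apply one_div_nonneg.mpr
          linarith
        linarith
    _ ≤ 2 / m := by
        rw [div_le_div_iff₀ (by linarith) (by linarith)]
        linarith
    _ ≤ 2 / c := by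
        apply div_le_div_of_nonneg_left (by norm_num) hc hcm

end Pool.Agent.Helper6.LehmerCount
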