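import Mathlib
import Pool.Agent.Helper6.LehmerCount.Dense

/-!
Counting Lehmer numbers, part 4: numbers all of whose initial segments are large have many prime
factors; counting by pairs.
-/

namespace Pool.Agent.Helper6.LehmerCount

open Finset Pool.Agent.Helper6.Lehmer

theorem growth {e B : ℕ} (hB : 2 ≤ B)
    (h : ∀ p ∈ e.primeFactors, p < B ∨ p < 2 * (sm p e) ^ 2) (H : ℕ) :
    B * sm H e ≤ B ^ (3 ^ #{p ∈ e.primeFactors | p < H}) := by
  induction H with
  | zero => simp [sm_zero]
  | succ H ih =>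
    rw [sm_succ]
    by_cases hp : H ∈ e.primeFactors
    · rw [if_pos hp]
      have hc : #{p ∈ e.primeFactors | p < H + 1} = #{p ∈ e.primeFactors | p < H} + 1 := by
        have : e.primeFactors.filter (fun p => p < H + 1) =
            insert H (e.primeFactors.filter (fun p => p < H)) := by
          ext p
          simp only [mem_filter, mem_insert]
          constructor
          · rintro ⟨h1, h2⟩
            rcases Nat.lt_succ_iff_lt_or_eq.mp h2 with h3 | h3
            · exact Or.inr ⟨h1, h3⟩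
            · exact Or.inl h3
          · rintro (rfl | ⟨h1, h2⟩)
            · exact ⟨hp, by omega⟩
            · exact ⟨h1, by omega⟩
        rw [this, Finset.card_insert_of_notMem (by simp)]
      rw [hc, pow_succ 3, pow_mul]
      obtain ⟨Z, hZ⟩ : ∃ Z, Z = B ^ 3 ^ #{p ∈ e.primeFactors | p < H} := ⟨_, rfl⟩
      rw [← hZ] at ih ⊢
      obtain ⟨g, hg⟩ : ∃ g, g = sm H e := ⟨_, rfl⟩
      have hg0 : 0 < g := by rw [hg]; exact sm_pos H e
      have h1 := h H hp
      rw [← hg] at ih h1 ⊢
      refine le_trans ?_ (Nat.pow_le_pow_left ih 3)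
      have hg1 : 1 ≤ g := hg0
      rcases h1 with h1 | h1
      · calc B * (g * H) ≤ B * (g * B) := Nat.mul_le_mul_left _ (Nat.mul_le_mul_left _ h1.le)
          _ = (B * g) * B := by ring
          _ ≤ (B * g) * ((B * g) * (B * g)) := by
              apply Nat.mul_le_mul_left
              have : 1 ≤ B * g := Nat.mul_pos (by omega) hg0
              calc B = B * 1 := by ring
                _ ≤ (B * g) * (B * g) := Nat.mul_le_mul (Nat.le_mul_of_pos_right B hg0) this
          _ = _ := by ring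
      · calc B * (g * H) ≤ B * (g * (2 * g ^ 2)) :=
              Nat.mul_le_mul_left _ (Nat.mul_le_mul_left _ h1.le)
          _ = (B * 2) * g ^ 3 := by ring
          _ ≤ (B * (B * B)) * g ^ 3 := by
              apply Nat.mul_le_mul_right
              apply Nat.mul_le_mul_left
              nlinarith
          _ = _ := by ring
    · rw [if_neg hp, mul_one]
      have hc : #{p ∈ e.primeFactors | p < H + 1} = #{p ∈ e.primeFactors | p < H} := by
        congr 1
        ext p
        simp only [mem_filter]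
        constructor
        · rintro ⟨h1, h2⟩
          refine ⟨h1, ?_⟩
          rcases Nat.lt_succ_iff_lt_or_eq.mp h2 with h3 | h3
          · exact h3
          · subst h3; exact absurd h1 hp
        · rintro ⟨h1, h2⟩
          exact ⟨h1, by omega⟩
      rw [hc]
      exact ih

theorem bad_growth {e U : ℕ} (he : Squarefree e) (hU : 1 ≤ U)
    (hbad : ∀ b, U ≤ 2 ^ b → (∃ p ∈ e.primeFactors, 2 ^ b ≤ p) → 2 ^ b < (sm (2 ^ b) e) ^ 2) :
    (2 * U) * e ≤ (2 * U) ^ (3 ^ #e.primeFactors) := by
  have h1 : ∀ p ∈ e.primeFactors, p < 2 * U ∨ p < 2 * (sm p e) ^ 2 := by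
    intro p hp
    rcases Nat.lt_or_ge p (2 * U) with h | h
    · exact Or.inl h
    · right
      have hpp := Nat.prime_of_mem_primeFactors hp
      have h2 : 2 ^ Nat.log 2 p ≤ p := Nat.pow_log_le_self 2 hpp.ne_zero
      have h3 : p < 2 ^ (Nat.log 2 p + 1) := Nat.lt_pow_succ_log_self (by norm_num) p
      rw [pow_succ] at h3
      have h4 := hbad (Nat.log 2 p) (by omega) ⟨p, hp, h2⟩
      have h5 : sm (2 ^ Nat.log 2 p) e ≤ sm p e := sm_mono h2
      have h6 : (sm (2 ^ Nat.log 2 p) e) ^ 2 ≤ (sm p e) ^ 2 := Nat.pow_le_pow_left h5 2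
      omega
  have h2 := growth (by omega) h1 (e + 1)
  rw [sm_eq_self he (Nat.lt_succ_self e)] at h2
  rw [Finset.filter_true_of_mem] at h2
  · exact h2
  · intro p hp
    exact Nat.lt_succ_of_le (Nat.le_of_mem_primeFactors hp)

/-- Counting by pairs. -/
theorem inj_count {ι : Type*} [DecidableEq ι] {S : Finset ℕ} {P : Finset ι} {X : ℕ} (f : ℕ → ι)
    (D F : ι → ℕ) (hS : ∀ n ∈ S, IsLehmer n ∧ n ≤ X) (hf : ∀ n ∈ S, f n ∈ P)
    (hD : ∀ n ∈ S, D (f n) ∣ n) (hF : ∀ n ∈ S, F (f n) ∣ n.totient)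
    (hX : ∀ n ∈ S, X < D (f n) * F (f n)) : #S ≤ #P := by
  apply Finset.card_le_card_of_injOn f hf
  intro n hn n' hn' h
  rw [Finset.mem_coe] at hn hn'
  have h1 := modEq_of_dvd (hS n hn).1 (hS n' hn').1 (hD n hn) (by rw [h]; exact hD n' hn')
    (hF n hn) (by rw [h]; exact hF n' hn')
  have h2 := hX n hn
  exact Nat.ModEq.eq_of_lt_of_lt h1 (lt_of_le_of_lt (hS n hn).2 h2) (lt_of_le_of_lt (hS n' hn').2 h2)

/-- bound for `n / φ(n)` -/
theorem prod_le_card_succ (S : Finset ℕ) (hS : ∀ p ∈ S, 2 ≤ p) :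
    ∏ p ∈ S, p ≤ (#S + 1) * ∏ p ∈ S, (p - 1) := by
  induction S using Finset.induction_on_max with
  | empty => simp
  | insert a S ha ih =>
    have hnot : a ∉ S := fun h => lt_irrefl _ (ha a h)
    rw [Finset.prod_insert hnot, Finset.prod_insert hnot, Finset.card_insert_of_notMem hnot]
    have ih' := ih (fun p hp => hS p (mem_insert_of_mem hp))
    have hcard : #S + 2 ≤ a := by
      have h1 : S ⊆ Ico 2 a := by
        intro p hp
        rw [mem_Ico]
        exact ⟨hS p (mem_insert_of_mem hp), ha p hp⟩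
      have h2 := Finset.card_le_card h1
      rw [Nat.card_Ico] at h2
      have h3 := hS a (mem_insert_self a S)
      omega
    obtain ⟨b, rfl⟩ : ∃ b, a = b + 1 := ⟨a - 1, by omega⟩
    simp only [Nat.add_sub_cancel]
    obtain ⟨x, hx⟩ : ∃ x, x = ∏ p ∈ S, p := ⟨_, rfl⟩
    obtain ⟨y, hy⟩ : ∃ y, y = ∏ p ∈ S, (p - 1) := ⟨_, rfl⟩
    rw [← hx, ← hy] at ih' ⊢
    -- (b + 1) x ≤ (b + 1) (#S + 1) y ≤ (#S + 2) b y, as #S + 1 ≤ b
    calc (b + 1) * x ≤ (b + 1) * ((#S + 1) * y) := Nat.mul_le_mul_left _ ih'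
      _ = ((b + 1) * (#S + 1)) * y := by ring
      _ ≤ ((#S + 1 + 1) * b) * y := by
          apply Nat.mul_le_mul_right
          nlinarith
      _ = _ := by ring

theorem Idx.index_le {n k : ℕ} (h : Idx n k) : k ≤ n.primeFactors.card + 1 := by
  have hsq := h.lehmer.squarefree
  have h1 := prod_le_card_succ n.primeFactors (fun p hp => (Nat.prime_of_mem_primeFactors hp).two_le)
  rw [Nat.prod_primeFactors_of_squarefree hsq, ← totient_squarefree hsq] at h1
  have h2 := h.eq
  have h3 : k * n.totient ≤ (n.primeFactors.card + 1) * n.totient := by omega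
  exact Nat.le_of_mul_le_mul_right h3 (Nat.totient_pos.mpr (by have := h.lehmer.one_lt; omega))

theorem card_primeFactors_lt {n l : ℕ} (hn : Squarefree n) (h : n < 2 ^ l) :
    n.primeFactors.card < l := by
  have h1 : 2 ^ n.primeFactors.card ≤ n := by
    conv_rhs => rw [← Nat.prod_primeFactors_of_squarefree hn]
    rw [← Finset.prod_const]
    exact Finset.prod_le_prod' (fun p hp => (Nat.prime_of_mem_primeFactors hp).two_le)
  exact (Nat.pow_lt_pow_iff_right (by norm_num)).mp (lt_of_le_of_lt h1 h)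

end Pool.Agent.Helper6.LehmerCount
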