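import Mathlib
import Pool.Agent.Helper6.LehmerCount.Growth

/-!
Counting Lehmer numbers, part 5: integers with many prime factors in a thin set are rare, and
large divisors made of a given set of primes.
-/

namespace Pool.Agent.Helper6.LehmerCount

open Finset

/-- number of elements of `V` dividing `e` -/
def om (V : Finset ℕ) (e : ℕ) : ℕ := #{p ∈ V | p ∣ e}

theorem sum_pow_om (V : Finset ℕ) (hV : ∀ p ∈ V, p.Prime) (Y : ℕ) (u : ℝ) (hu : 1 ≤ u) :
    ∑ e ∈ Icc 1 Y, u ^ om V e ≤ Y * Real.exp ((u - 1) * ∑ p ∈ V, 1 / (p : ℝ)) := by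
  classical
  have h1 : ∀ e : ℕ, u ^ om V e = ∑ D ∈ V.powerset,
      (u - 1) ^ #D * (if (∏ p ∈ D, p) ∣ e then 1 else 0) := by
    intro e
    have h2 : u ^ om V e = ∏ p ∈ V, (1 + (u - 1) * (if p ∣ e then 1 else 0)) := by
      unfold om
      rw [← Finset.prod_const, Finset.prod_filter]
      apply Finset.prod_congr rfl
      intro p _
      split_ifs <;> ring
    rw [h2, Finset.prod_one_add]
    apply Finset.sum_congr rfl
    intro D hD
    rw [mem_powerset] at hD
    rw [Finset.prod_mul_distrib, Finset.prod_const]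
    congr 1
    by_cases h : (∏ p ∈ D, p) ∣ e
    · rw [if_pos h]
      apply Finset.prod_eq_one
      intro p hp
      rw [if_pos]
      exact (Finset.dvd_prod_of_mem (fun p => p) hp).trans h
    · rw [if_neg h]
      by_contra hne
      apply h
      apply Finset.prod_primes_dvd
      · intro p hp; exact (hV p (hD hp)).prime
      · intro p hp
        by_contra hpe
        apply hne
        apply Finset.prod_eq_zero hp
        rw [if_neg hpe]
  rw [Finset.sum_congr rfl (fun e _ => h1 e), Finset.sum_comm]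
  have h3 : ∀ D ∈ V.powerset, ∑ e ∈ Icc 1 Y, (u - 1) ^ #D * (if (∏ p ∈ D, p) ∣ e then (1 : ℝ) else 0) ≤
      Y * ∏ p ∈ D, ((u - 1) * (1 / (p : ℝ))) := by
    intro D hD
    rw [← Finset.mul_sum, Finset.prod_mul_distrib, Finset.prod_const, ← Finset.sum_filter,
      Finset.sum_const, nsmul_eq_mul, mul_one]
    have h4 : (#{e ∈ Icc 1 Y | (∏ p ∈ D, p) ∣ e} : ℝ) ≤ Y * ∏ p ∈ D, (1 / (p : ℝ)) := by
      have h5 : #{e ∈ Icc 1 Y | (∏ p ∈ D, p) ∣ e} = Y / ∏ p ∈ D, p := by
        have := Nat.Ioc_filter_dvd_card_eq_div Y (∏ p ∈ D, p)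
        have h6 : Ioc 0 Y = Icc 1 Y := by
          ext x; simp [Nat.lt_iff_add_one_le]
        rwa [h6] at this
      rw [h5]
      refine Nat.cast_div_le.trans (le_of_eq ?_)
      rw [Finset.prod_div_distrib, Finset.prod_const_one, Nat.cast_prod]
      ring
    calc (u - 1) ^ #D * (#{e ∈ Icc 1 Y | (∏ p ∈ D, p) ∣ e} : ℝ)
        ≤ (u - 1) ^ #D * (Y * ∏ p ∈ D, (1 / (p : ℝ))) :=
          mul_le_mul_of_nonneg_left h4 (pow_nonneg (by linarith) _)
      _ = _ := by ring
  refine (Finset.sum_le_sum h3).trans ?_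
  rw [← Finset.mul_sum]
  apply mul_le_mul_of_nonneg_left _ (by positivity)
  rw [← Finset.prod_one_add]
  calc ∏ p ∈ V, (1 + (u - 1) * (1 / (p : ℝ)))
      ≤ ∏ p ∈ V, Real.exp ((u - 1) * (1 / (p : ℝ))) := by
        apply Finset.prod_le_prod
        · intro p _
          have : 0 ≤ (u - 1) * (1 / (p : ℝ)) := mul_nonneg (by linarith) (by positivity)
          linarith
        · intro p _
          have := Real.add_one_le_exp ((u - 1) * (1 / (p : ℝ)))
          linarith
    _ = Real.exp ((u - 1) * ∑ p ∈ V, 1 / (p : ℝ)) := by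
        rw [← Real.exp_sum, Finset.mul_sum]

/-- few integers have many prime factors in `V` -/
theorem rare (V : Finset ℕ) (hV : ∀ p ∈ V, p.Prime) (Y : ℕ) (u g : ℝ) (hu : 1 < u) :
    (#{e ∈ Icc 1 Y | g ≤ (om V e : ℝ)} : ℝ) ≤
      Y * Real.exp ((u - 1) * ∑ p ∈ V, 1 / (p : ℝ) - g * Real.log u) := by
  classical
  have h1 := sum_pow_om V hV Y u hu.le
  have hu0 : 0 < u := by linarith
  have h2 : (#{e ∈ Icc 1 Y | g ≤ (om V e : ℝ)} : ℝ) * Real.exp (g * Real.log u) ≤
      ∑ e ∈ Icc 1 Y, u ^ om V e := by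
    calc (#{e ∈ Icc 1 Y | g ≤ (om V e : ℝ)} : ℝ) * Real.exp (g * Real.log u)
        = ∑ e ∈ Icc 1 Y with g ≤ (om V e : ℝ), Real.exp (g * Real.log u) := by
          rw [Finset.sum_const, nsmul_eq_mul]
      _ ≤ ∑ e ∈ Icc 1 Y with g ≤ (om V e : ℝ), u ^ om V e := by
          apply Finset.sum_le_sum
          intro e he
          rw [mem_filter] at he
          have h3 : u ^ om V e = Real.exp ((om V e : ℝ) * Real.log u) := by
            rw [mul_comm, Real.exp_mul, Real.exp_log hu0, Real.rpow_natCast]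
          rw [h3]
          apply Real.exp_le_exp.mpr
          exact mul_le_mul_of_nonneg_right he.2 (Real.log_nonneg hu.le)
      _ ≤ _ := Finset.sum_le_sum_of_subset_of_nonneg (Finset.filter_subset _ _)
          (fun e _ _ => by positivity)
  have h3 : (#{e ∈ Icc 1 Y | g ≤ (om V e : ℝ)} : ℝ) ≤
      (Y * Real.exp ((u - 1) * ∑ p ∈ V, 1 / (p : ℝ))) * Real.exp (-(g * Real.log u)) := by
    rw [Real.exp_neg, ← div_eq_mul_inv, le_div_iff₀ (Real.exp_pos _)]
    exact h2.trans h1
  refine h3.trans (le_of_eq ?_)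
  rw [mul_assoc, ← Real.exp_add]
  congr 2

/-- partial products -/
theorem exists_partial {P : Finset ℕ} (q : ℕ → ℕ) {M B : ℕ} (hM : 1 ≤ M) (hB : 2 ≤ B)
    (hq1 : ∀ p ∈ P, 1 ≤ q p) (hq : ∀ p ∈ P, q p ≤ B) (h : M ≤ ∏ p ∈ P, q p) :
    ∃ P' ⊆ P, M ≤ ∏ p ∈ P', q p ∧ ∏ p ∈ P', q p < M * B := by
  induction P using Finset.induction_on with
  | empty =>
    refine ⟨∅, Finset.Subset.refl _, h, ?_⟩
    simp only [Finset.prod_empty] at h ⊢
    nlinarith
  | @insert a P ha ih =>
    rcases Nat.lt_or_ge (∏ p ∈ P, q p) M with h1 | h1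
    · refine ⟨insert a P, Finset.Subset.refl _, h, ?_⟩
      rw [Finset.prod_insert ha]
      have h2 := hq a (mem_insert_self a P)
      calc q a * ∏ p ∈ P, q p ≤ B * ∏ p ∈ P, q p := Nat.mul_le_mul_right _ h2
        _ < B * M := Nat.mul_lt_mul_of_pos_left h1 (by omega)
        _ = M * B := by ring
    · obtain ⟨P', hP', h2, h3⟩ := ih (fun p hp => hq1 p (mem_insert_of_mem hp))
        (fun p hp => hq p (mem_insert_of_mem hp)) h1
      exact ⟨P', hP'.trans (Finset.subset_insert a P), h2, h3⟩

/-- the positive integers below `Z` all of whose prime factors lie in `Q` -/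
def smoothSet (Q : Finset ℕ) (Z : ℕ) : Finset ℕ :=
  {m ∈ Icc 1 Z | ∀ p ∈ m.primeFactors, p ∈ Q}

theorem card_smoothSet (Q : Finset ℕ) (Z : ℕ) :
    #(smoothSet Q Z) ≤ (Nat.log 2 Z + 1) ^ #Q := by
  classical
  have h1 : #(smoothSet Q Z) ≤ #(Q.pi (fun _ => range (Nat.log 2 Z + 1))) := by
    apply Finset.card_le_card_of_injOn (fun m => fun q _ => m.factorization q)
    · intro m hm
      rw [Finset.mem_coe, smoothSet, mem_filter, mem_Icc] at hm
      rw [Finset.mem_coe, Finset.mem_pi]
      intro q _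
      rw [mem_range, Nat.lt_succ_iff]
      change m.factorization q ≤ Nat.log 2 Z
      rcases Nat.eq_zero_or_pos (m.factorization q) with h0 | h0
      · rw [h0]; omega
      · have hq : q.Prime := by
          by_contra hq
          rw [Nat.factorization_eq_zero_of_not_prime m hq] at h0
          omega
        have h2 : 2 ^ m.factorization q ≤ Z := by
          calc 2 ^ m.factorization q ≤ q ^ m.factorization q := Nat.pow_le_pow_left hq.two_le _
            _ ≤ m := Nat.ordProj_le q (by omega)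
            _ ≤ Z := hm.1.2
        exact Nat.le_log_of_pow_le (by norm_num) h2
    · intro m hm m' hm' h
      rw [Finset.mem_coe, smoothSet, mem_filter, mem_Icc] at hm hm'
      apply Nat.eq_of_factorization_eq (by omega) (by omega)
      intro q
      by_cases hq : q ∈ Q
      · have := congrFun (congrFun h q) hq
        exact this
      · have e1 : m.factorization q = 0 := by
          by_contra hne
          exact hq (hm.2 q (by rw [← Nat.support_factorization]; exact Finsupp.mem_support_iff.mpr hne))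
        have e2 : m'.factorization q = 0 := by
          by_contra hne
          exact hq (hm'.2 q (by rw [← Nat.support_factorization]; exact Finsupp.mem_support_iff.mpr hne))
        rw [e1, e2]
  refine h1.trans (le_of_eq ?_)
  rw [Finset.card_pi, Finset.prod_const, Finset.card_range]

end Pool.Agent.Helper6.LehmerCount
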