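import Mathlib
import Pool.Agent.Helper6.Sieve.Recursion
import Pool.Agent.Helper6.LehmerCount.Dense

/-!
Counting Lehmer numbers, part 6: primes `p` for which `p - 1` has no prime factor in a given set `Q`.
-/

namespace Pool.Agent.Helper6.LehmerCount

open Finset Pool.Agent.Helper6.Sieve

/-- The number of primes `p < X` in `W`, where no element of `P` divides `p - 1`. -/
theorem card_le' {P W : Finset ℕ} (hP : ∀ p ∈ P, 3 ≤ p) (hPp : ∀ p ∈ P, p.Prime)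
    (hW : ∀ p ∈ W, p.Prime) (hcyc : ∀ p ∈ W, ∀ q ∈ P, ¬ q ∣ p - 1) {i : ℕ} (hi : 1 ≤ i) (X : ℕ) :
    (#{p ∈ W | p < X} : ℝ) ≤
      X / (3 * i * ∏ p ∈ P with p ≤ 2 ^ i, (1 + 1 / (p : ℝ))) + 2 * 2 ^ (108 * i) := by
  classical
  obtain ⟨D, hD⟩ : ∃ D, D = 2 ^ (9 * i) * 2 ^ (9 * i) := ⟨_, rfl⟩
  have hD1 : 1 ≤ D := by rw [hD]; exact Nat.mul_pos (by positivity) (by positivity)
  have h1 := sift_bound P hP D X hD1
  have h2 := le_selSum' (hP := hP) hPp hi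
  rw [← hD] at h2
  have hE : 1 ≤ ∏ p ∈ P with p ≤ 2 ^ i, (1 + 1 / (p : ℝ)) := one_le_prod_one_add _
  have hi' : (1 : ℝ) ≤ i := by exact_mod_cast hi
  have hpos : 0 < 3 * i * ∏ p ∈ P with p ≤ 2 ^ i, (1 + 1 / (p : ℝ)) := by positivity
  have h3 : (X : ℝ) * (selSum (sv P hP D) D)⁻¹ ≤
      X / (3 * i * ∏ p ∈ P with p ≤ 2 ^ i, (1 + 1 / (p : ℝ))) := by
    rw [div_eq_mul_inv]
    apply mul_le_mul_of_nonneg_left _ (by positivity)
    exact inv_anti₀ hpos h2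
  have h4 : #{p ∈ W | p < X} ≤ D + #{n ∈ range X | ∀ l ∈ Nat.primesLE D, ¬ Bad P l n} := by
    have h5 : W.filter (fun p => p < X) ⊆
        Finset.Icc 1 D ∪ (range X).filter (fun n => ∀ l ∈ Nat.primesLE D, ¬ Bad P l n) := by
      intro p hp
      rw [mem_filter] at hp
      rw [mem_union, mem_Icc, mem_filter, mem_range]
      have hpp := hW p hp.1
      rcases Nat.lt_or_ge D p with hlt | hge
      · right
        refine ⟨hp.2, ?_⟩
        intro l hl hbad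
        rw [Nat.mem_primesLE] at hl
        rcases hbad with hb | ⟨hlP, hb⟩
        · have := (Nat.prime_dvd_prime_iff_eq hl.2 hpp).mp (Nat.dvd_of_mod_eq_zero hb)
          omega
        · apply hcyc p hp.1 l hlP
          have h6 : p ≡ 1 [MOD l] := by
            unfold Nat.ModEq
            rw [hb, Nat.mod_eq_of_lt hl.2.one_lt]
          exact (Nat.modEq_iff_dvd' hpp.one_lt.le).mp h6.symm
      · left
        exact ⟨hpp.one_lt.le, hge⟩
    have h6 := (Finset.card_le_card h5).trans (Finset.card_union_le _ _)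
    rw [Nat.card_Icc, Nat.add_sub_cancel] at h6
    exact h6
  have h4' : (#{p ∈ W | p < X} : ℝ) ≤
      D + (#{n ∈ range X | ∀ l ∈ Nat.primesLE D, ¬ Bad P l n} : ℝ) := by exact_mod_cast h4
  have h5 : (D : ℝ) = 2 ^ (18 * i) := by
    rw [hD]
    push_cast
    rw [← pow_add]
    congr 1
    ring
  have h6 : (D : ℝ) ^ 6 = 2 ^ (108 * i) := by
    rw [h5, ← pow_mul]
    congr 1
    ring
  have h7 : (2 : ℝ) ^ (18 * i) ≤ 2 ^ (108 * i) := pow_le_pow_right₀ (by norm_num) (by omega)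
  linarith

theorem sum_inv_le_log (a b : ℕ) (ha : 1 ≤ a) :
    ∑ J ∈ Ico a b, 1 / (J : ℝ) ≤ 1 + Real.log b := by
  have h1 : ∑ J ∈ Ico a b, 1 / (J : ℝ) ≤ ∑ J ∈ Icc 1 b, 1 / (J : ℝ) := by
    apply Finset.sum_le_sum_of_subset_of_nonneg
    · intro x hx
      rw [mem_Ico] at hx
      rw [mem_Icc]
      omega
    · intro x _ _
      positivity
  refine h1.trans ?_
  have h2 := harmonic_le_one_add_log b
  rw [harmonic_eq_sum_Icc] at h2
  push_cast at h2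
  simpa [one_div] using h2

/-- Sum of the reciprocals of the primes of `W`, where no element of `Q` divides `p - 1`. -/
theorem sum_inv_le {Q W : Finset ℕ} (hQ : ∀ p ∈ Q, 3 ≤ p) (hQp : ∀ p ∈ Q, p.Prime)
    (hW : ∀ p ∈ W, p.Prime) (hcyc : ∀ p ∈ W, ∀ q ∈ Q, ¬ q ∣ p - 1) {i₀ : ℕ} (hi₀ : 1 ≤ i₀)
    (hQi : ∀ q ∈ Q, q ≤ 2 ^ i₀) {b : ℕ} (hb : 128 * i₀ ≤ b) :
    ∑ p ∈ W with (2 ^ (128 * i₀) < p ∧ p ≤ 2 ^ b), (1 : ℝ) / p ≤
      (342 / ∏ q ∈ Q, (1 + 1 / (q : ℝ))) * (1 + Real.log b) + 2 ^ 18 := by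
  classical
  obtain ⟨G, hG⟩ : ∃ G : ℝ, G = ∏ q ∈ Q, (1 + 1 / (q : ℝ)) := ⟨_, rfl⟩
  rw [← hG]
  have hG1 : 1 ≤ G := by rw [hG]; exact one_le_prod_one_add Q
  refine (block_sum W _ _ hb).trans ?_
  have h1 : ∀ J ∈ Ico (128 * i₀) b, (#{p ∈ W | p < 2 ^ (J + 1) + 1} : ℝ) / 2 ^ J ≤
      (342 / G) * (1 / J) + 2 ^ 17 * (1 / (J : ℝ) ^ 2) := by
    intro J hJ
    rw [mem_Ico] at hJ
    obtain ⟨i, hi⟩ : ∃ i, i = J / 128 := ⟨_, rfl⟩
    have hii : i₀ ≤ i := by rw [hi]; omega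
    have hJi : 128 * i ≤ J := by rw [hi]; omega
    have hJi' : J < 128 * (i + 1) := by rw [hi]; omega
    have hi1 : 1 ≤ i := by omega
    have h2 := card_le' hQ hQp hW hcyc hi1 (2 ^ (J + 1) + 1)
    have hfull : Q.filter (fun p => p ≤ 2 ^ i) = Q := by
      apply Finset.filter_true_of_mem
      intro q hq
      exact (hQi q hq).trans (Nat.pow_le_pow_right (by norm_num) hii)
    rw [hfull, ← hG] at h2
    have hiR : (1 : ℝ) ≤ i := by exact_mod_cast hi1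
    have hJR : (J : ℝ) ≤ 256 * i := by
      have : J ≤ 256 * i := by omega
      exact_mod_cast this
    have hJ1 : (1 : ℝ) ≤ J := by
      have : 1 ≤ J := by omega
      exact_mod_cast this
    have h3 : (((2 ^ (J + 1) + 1 : ℕ)) : ℝ) ≤ 4 * 2 ^ J := by
      push_cast
      have : (1 : ℝ) ≤ 2 ^ J := one_le_pow₀ (by norm_num)
      rw [pow_succ]
      linarith
    have hpos : 0 < 3 * i * G := by positivity
    have h4 : (#{p ∈ W | p < 2 ^ (J + 1) + 1} : ℝ) ≤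
        4 * 2 ^ J / (3 * i * G) + 2 * 2 ^ (108 * i) := by
      refine h2.trans ?_
      gcongr
    have h5 : (2 : ℝ) * 2 ^ (108 * i) ≤ (2 ^ 17 * (1 / (J : ℝ) ^ 2)) * 2 ^ J := by
      have h6 : (2 : ℝ) ^ (128 * i) ≤ 2 ^ J := pow_le_pow_right₀ (by norm_num) hJi
      have h7 : (2 : ℝ) ^ (128 * i) = 2 ^ (108 * i) * 2 ^ (20 * i) := by rw [← pow_add]; congr 1; ring
      have h8 : (i : ℝ) ^ 2 ≤ 2 ^ (20 * i) := by
        have h9 : i < 2 ^ i := Nat.lt_two_pow_self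
        have h10 : (i : ℝ) ≤ 2 ^ i := by exact_mod_cast h9.le
        calc (i : ℝ) ^ 2 ≤ (2 ^ i) ^ 2 := pow_le_pow_left₀ (by positivity) h10 2
          _ = 2 ^ (2 * i) := by rw [← pow_mul]; congr 1; ring
          _ ≤ 2 ^ (20 * i) := pow_le_pow_right₀ (by norm_num) (by omega)
      have h9 : (J : ℝ) ^ 2 ≤ 2 ^ 16 * i ^ 2 := by
        calc (J : ℝ) ^ 2 ≤ (256 * i) ^ 2 := pow_le_pow_left₀ (by positivity) hJR 2
          _ = _ := by ring
      have hJsq : (0 : ℝ) < (J : ℝ) ^ 2 := by positivity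
      rw [mul_one_div, div_mul_eq_mul_div, le_div_iff₀ hJsq]
      calc 2 * (2 : ℝ) ^ (108 * i) * (J : ℝ) ^ 2 ≤ 2 * (2 : ℝ) ^ (108 * i) * (2 ^ 16 * i ^ 2) :=
            mul_le_mul_of_nonneg_left h9 (by positivity)
        _ ≤ 2 * (2 : ℝ) ^ (108 * i) * (2 ^ 16 * 2 ^ (20 * i)) := by gcongr
        _ = 2 ^ 17 * (2 ^ (108 * i) * 2 ^ (20 * i)) := by ring
        _ = 2 ^ 17 * 2 ^ (128 * i) := by rw [h7]
        _ ≤ _ := mul_le_mul_of_nonneg_left h6 (by positivity)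
    have h6 : 4 * (2 : ℝ) ^ J / (3 * i * G) ≤ (342 / G * (1 / J)) * 2 ^ J := by
      have hGpos : 0 < G := by linarith
      rw [mul_one_div, div_div, div_mul_eq_mul_div, div_le_div_iff₀ hpos (by positivity)]
      have hP : (0 : ℝ) < 2 ^ J := by positivity
      have h7 : 4 * (J : ℝ) ≤ 342 * (3 * i) := by linarith
      calc 4 * (2 : ℝ) ^ J * (G * J) = (4 * J) * (2 ^ J * G) := by ring
        _ ≤ (342 * (3 * i)) * (2 ^ J * G) := mul_le_mul_of_nonneg_right h7 (by positivity)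
        _ = _ := by ring
    rw [div_le_iff₀ (by positivity)]
    refine h4.trans ?_
    rw [add_mul]
    exact add_le_add h6 h5
  refine (Finset.sum_le_sum h1).trans ?_
  rw [Finset.sum_add_distrib, ← Finset.mul_sum, ← Finset.mul_sum]
  have h2 := sum_inv_le_log (128 * i₀) b (by omega)
  have h3 : ∑ J ∈ Ico (128 * i₀) b, 1 / (J : ℝ) ^ 2 ≤ 2 := by
    have h4 := sum_inv_sq (Ico (128 * i₀) b) 1 one_pos (by
      intro v hv
      rw [mem_Ico] at hv
      have : 1 ≤ v := by omega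
      exact ⟨this, by exact_mod_cast this⟩)
    rw [div_one] at h4
    exact h4
  have hlog : 0 ≤ Real.log b := Real.log_natCast_nonneg b
  calc 342 / G * ∑ J ∈ Ico (128 * i₀) b, 1 / (J : ℝ) +
        2 ^ 17 * ∑ J ∈ Ico (128 * i₀) b, 1 / (J : ℝ) ^ 2
      ≤ 342 / G * (1 + Real.log b) + 2 ^ 17 * 2 := by
        gcongr
    _ = _ := by norm_num

end Pool.Agent.Helper6.LehmerCount
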