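import Mathlib
import Pool.Agent.Helper6.LehmerCount.Dense

/-!
Counting Lehmer numbers, part 3: Lehmer numbers with a sparse initial segment.
-/

namespace Pool.Agent.Helper6.LehmerCount

open Finset Pool.Agent.Helper6.Lehmer

/-- a factorisation `n = d e` such that the part of `e` below `H` is at most `√H`, and `e` has a
prime factor `≥ H` -/
structure Good (H : ℕ) (dmin dmax : ℝ) (n d e : ℕ) : Prop where
  eq : n = d * e
  lo : dmin ≤ d
  hi : (d : ℝ) ≤ dmax
  big : ∃ p ∈ e.primeFactors, H ≤ p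
  small : (sm H e) ^ 2 ≤ H

theorem good_data {n k L H R d e : ℕ} {dmin dmax : ℝ} (h : Idx n k)
    (hL : 2 * n.primeFactors.card ≤ L) (hL1 : 1 ≤ L) (hLH : L ≤ H) (hR1 : 1 ≤ R)
    (hLR : L * R ^ 2 ≤ H) (hg : Good H dmin dmax n d e) :
    ∃ v r, v * r ∣ n ∧ v * r < n ∧ r ≤ R ∧ R < L * r ∧ r ∣ sm H n ∧ sm H (v * r) = sm H n ∧
      dmin ≤ ((v * r : ℕ) : ℝ) ∧ ((v * r : ℕ) : ℝ) ≤ dmax * Real.sqrt H := by
  have hsq := h.lehmer.squarefree
  have hH0 : 0 < H := by omega
  have hn1 := h.lehmer.one_lt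
  obtain ⟨p, hpe, hHp⟩ := hg.big
  have hpp := Nat.prime_of_mem_primeFactors hpe
  have he0 : e ≠ 0 := by
    rintro rfl
    simp at hpe
  have hcop : d.Coprime e := by
    have := hsq
    rw [hg.eq] at this
    exact Nat.coprime_of_squarefree_mul this
  have hpn : p ∈ n.primeFactors := by
    rw [Nat.mem_primeFactors]
    refine ⟨hpp, ?_, by omega⟩
    rw [hg.eq]
    exact (Nat.dvd_of_mem_primeFactors hpe).mul_left d
  have hm : sm H n < n := h.sm_lt hpn hHp
  have h1 := h.lt_mul_totient (sm_dvd H) hm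
  have h2 := h.basic2 hL hLH hH0
  -- H < L m
  have h3 : H < L * sm H n := by
    have h4 : (sm H n + 1) * H ≤ k * (sm H n).totient * H := Nat.mul_le_mul_right _ h1
    nlinarith
  have hR2 : R ≤ L * R ^ 2 := by
    calc R = 1 * R ^ 1 := by ring
      _ ≤ L * R ^ 2 := Nat.mul_le_mul hL1 (Nat.pow_le_pow_right hR1 (by norm_num))
  obtain ⟨r, hr1, hr2, hr3⟩ := h.dense hL H R hR1 (by omega)
  -- the divisor D = d * sm H e
  have hsmn : sm H n = sm H d * sm H e := by rw [hg.eq, sm_mul hcop]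
  have hrD : r ∣ d * sm H e := by
    refine hr1.trans ?_
    rw [hsmn]
    exact Nat.mul_dvd_mul_right (sm_dvd H) _
  obtain ⟨v, hv⟩ := hrD
  have hD : v * r = d * sm H e := by rw [hv]; ring
  have hDn : v * r ∣ n := by
    rw [hD, hg.eq]
    exact Nat.mul_dvd_mul_left d (sm_dvd H)
  have hesq : Squarefree e := by
    have := hsq
    rw [hg.eq] at this
    exact this.squarefree_of_dvd (Dvd.intro_left _ rfl)
  have hd0 : 0 < d := by
    rcases Nat.eq_zero_or_pos d with h0 | h0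
    · have := hg.eq
      rw [h0, zero_mul] at this
      omega
    · exact h0
  refine ⟨v, r, hDn, ?_, hr2, hr3, hr1, ?_, ?_, ?_⟩
  · rw [hD, hg.eq]
    apply Nat.mul_lt_mul_of_pos_left _ hd0
    -- sm H e < e
    have h5 := sm_mul_lg hesq H
    have h6 : p ∣ lg H e := by
      unfold lg
      apply Finset.dvd_prod_of_mem (fun p => p)
      rw [mem_filter]
      exact ⟨hpe, by omega⟩
    have h7 : p ≤ lg H e := Nat.le_of_dvd (lg_pos H e) h6
    have h8 := hpp.two_le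
    have h9 := sm_pos H e
    calc sm H e < sm H e * lg H e := by nlinarith
      _ = e := h5
  · rw [hD]
    have hcop' : d.Coprime (sm H e) := hcop.coprime_dvd_right (sm_dvd H)
    rw [sm_mul hcop', hsmn]
    congr 1
    apply sm_eq_self' (sm_squarefree H e)
    intro q hq
    rw [primeFactors_sm, mem_filter] at hq
    exact hq.2
  · refine hg.lo.trans ?_
    rw [hD]
    have h10 : d * 1 ≤ d * sm H e := Nat.mul_le_mul_left _ (sm_pos H e)
    rw [mul_one] at h10
    exact_mod_cast h10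
  · rw [hD]
    push_cast
    have h11 : (sm H e : ℝ) ≤ Real.sqrt H := by
      apply Real.le_sqrt_of_sq_le
      exact_mod_cast hg.small
    exact mul_le_mul hg.hi h11 (by positivity) (le_trans (by positivity) hg.hi)

theorem good_inj {n n' k L H R v r r' : ℕ} (h : Idx n k) (h' : Idx n' k)
    (hL : 2 * n.primeFactors.card ≤ L) (hL' : 2 * n'.primeFactors.card ≤ L)
    (hL1 : 1 ≤ L) (hLH : L ≤ H) (hLR : L * R ^ 2 ≤ H)
    (h1 : v * r ∣ n) (h2 : v * r < n) (h3 : r ≤ R) (h4 : r ∣ sm H n) (h5 : sm H (v * r) = sm H n)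
    (h1' : v * r' ∣ n') (h2' : v * r' < n') (h3' : r' ≤ R) (h4' : r' ∣ sm H n')
    (h5' : sm H (v * r') = sm H n') : r = r' := by
  have hH0 : 0 < H := by omega
  have main : ∀ n r : ℕ, Idx n k → 2 * n.primeFactors.card ≤ L → v * r ∣ n → v * r < n → r ∣ sm H n →
      sm H (v * r) = sm H n → Squarefree r ∧ sm H v * r < (k * (sm H v).totient) * r.totient ∧
      (k * (sm H v).totient) * r.totient * H < sm H v * r * H + L * (sm H v * r) := by
    intro n r h hL h1 h2 h4 h5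
    have hsq := h.lehmer.squarefree
    have hvr : Squarefree (v * r) := hsq.squarefree_of_dvd h1
    have hcop : v.Coprime r := Nat.coprime_of_squarefree_mul hvr
    have hrsq : Squarefree r := hvr.squarefree_of_dvd (Dvd.intro_left _ rfl)
    have hsmr : sm H r = r := by
      apply sm_eq_self' hrsq
      intro q hq
      have hq1 : q ∈ (sm H n).primeFactors :=
        Nat.primeFactors_mono h4 (sm_pos H n).ne' hq
      rw [primeFactors_sm, mem_filter] at hq1
      exact hq1.2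
    have h6 : sm H n = sm H v * r := by rw [← h5, sm_mul hcop, hsmr]
    have hcop' : (sm H v).Coprime r := hcop.coprime_dvd_left (sm_dvd H)
    have h7 : (sm H n).totient = (sm H v).totient * r.totient := by rw [h6, Nat.totient_mul hcop']
    have h8 : sm H n < n := by
      have : sm H n ≤ v * r := by
        rw [← h5]
        exact Nat.le_of_dvd (Nat.pos_of_ne_zero hvr.ne_zero) (sm_dvd H)
      omega
    have h9 := h.lt_mul_totient (sm_dvd H) h8
    have h10 := h.basic2 hL hLH hH0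
    rw [h7] at h9 h10
    rw [h6] at h9 h10
    refine ⟨hrsq, ?_, ?_⟩
    · calc sm H v * r < k * ((sm H v).totient * r.totient) := h9
        _ = _ := by ring
    · calc (k * (sm H v).totient) * r.totient * H = k * ((sm H v).totient * r.totient) * H := by ring
        _ < _ := h10
  obtain ⟨a1, a2, a3⟩ := main n r h hL h1 h2 h4 h5
  obtain ⟨b1, b2, b3⟩ := main n' r' h' hL' h1' h2' h4' h5'
  exact unique_r a1 b1 h3 h3' hLR a2 a3 b2 b3

theorem good_count {S : Finset ℕ} {k L H R X : ℕ} {dmin dmax : ℝ} (hdmin : 0 < dmin) (hdmax : 0 ≤ dmax)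
    (hL1 : 1 ≤ L) (hLH : L ≤ H) (hR1 : 1 ≤ R) (hLR : L * R ^ 2 ≤ H)
    (hS : ∀ n ∈ S, Idx n k ∧ n ≤ X ∧ 2 * n.primeFactors.card ≤ L ∧
      ∃ d e, Good H dmin dmax n d e) :
    (#S : ℝ) ≤ L * dmax * Real.sqrt H / R + 2 * X * k * L ^ 2 / (R * dmin) := by
  classical
  have hdata : ∀ n ∈ S, ∃ v r, v * r ∣ n ∧ v * r < n ∧ r ≤ R ∧ R < L * r ∧ r ∣ sm H n ∧
      sm H (v * r) = sm H n ∧
      dmin ≤ ((v * r : ℕ) : ℝ) ∧ ((v * r : ℕ) : ℝ) ≤ dmax * Real.sqrt H := by
    intro n hn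
    obtain ⟨h1, _, h3, d, e, h4⟩ := hS n hn
    exact good_data h1 h3 hL1 hLH hR1 hLR h4
  choose! v r hd1 hd2 hd3 hd4 hd5 hd6 hd7 hd8 using hdata
  have hR0 : (0 : ℝ) < R := by exact_mod_cast hR1
  have hL0 : (0 : ℝ) < L := by exact_mod_cast hL1
  -- positivity of v
  have hvpos : ∀ n ∈ S, 1 ≤ v n := by
    intro n hn
    have h1 := hd7 n hn
    rcases Nat.eq_zero_or_pos (v n) with h0 | h0
    · rw [h0, zero_mul, Nat.cast_zero] at h1
      linarith
    · exact h0
  have hvlo : ∀ n ∈ S, dmin / R ≤ (v n : ℝ) := by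
    intro n hn
    rw [div_le_iff₀ hR0]
    refine (hd7 n hn).trans ?_
    have := hd3 n hn
    push_cast
    have h2 : (r n : ℝ) ≤ R := by exact_mod_cast this
    exact mul_le_mul_of_nonneg_left h2 (by positivity)
  have hvhi : ∀ n ∈ S, (v n : ℝ) ≤ L * dmax * Real.sqrt H / R := by
    intro n hn
    rw [le_div_iff₀ hR0]
    have h1 := hd4 n hn
    have h2 : (R : ℝ) ≤ L * r n := by exact_mod_cast h1.le
    have h3 := hd8 n hn
    push_cast at h3
    calc (v n : ℝ) * R ≤ v n * (L * r n) := mul_le_mul_of_nonneg_left h2 (by positivity)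
      _ = L * (v n * r n) := by ring
      _ ≤ L * (dmax * Real.sqrt H) := mul_le_mul_of_nonneg_left h3 hL0.le
      _ = _ := by ring
  obtain ⟨V, hV⟩ : ∃ V, V = S.image v := ⟨_, rfl⟩
  -- fibres
  have hfib : ∀ u ∈ V, (#{n ∈ S | v n = u} : ℝ) ≤ 1 + (X * k * L ^ 2 / R ^ 2) * (1 / (u : ℝ) ^ 2) := by
    intro u hu
    rw [hV, Finset.mem_image] at hu
    obtain ⟨n₀, hn₀, rfl⟩ := hu
    have hrr : ∀ n ∈ S, v n = v n₀ → r n = r n₀ := by
      intro n hn hvn
      obtain ⟨a1, _, a3, _⟩ := hS n hn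
      obtain ⟨b1, _, b3, _⟩ := hS n₀ hn₀
      have e1 := hd1 n hn
      have e2 := hd2 n hn
      have e6 := hd6 n hn
      rw [hvn] at e1 e2 e6
      exact good_inj a1 b1 a3 b3 hL1 hLH hLR e1 e2 (hd3 n hn) (hd5 n hn) e6
        (hd1 n₀ hn₀) (hd2 n₀ hn₀) (hd3 n₀ hn₀) (hd5 n₀ hn₀) (hd6 n₀ hn₀)
    obtain ⟨D, hD⟩ : ∃ D, D = v n₀ * r n₀ := ⟨_, rfl⟩
    have hI := (hS n₀ hn₀).1
    have hDn : D ∣ n₀ := by rw [hD]; exact hd1 n₀ hn₀
    have hDlt : D < n₀ := by rw [hD]; exact hd2 n₀ hn₀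
    have hDφ := hI.lt_mul_totient hDn hDlt
    have h1 : #{n ∈ S | v n = v n₀} ≤ X / (D * D.totient) + 1 := by
      apply card_le_of_modEq
      · intro n hn
        rw [mem_filter] at hn
        exact (hS n hn.1).2.1
      · intro n hn n' hn'
        rw [mem_filter] at hn hn'
        have e1 : D ∣ n := by
          rw [hD, ← hn.2, ← hrr n hn.1 hn.2]
          exact hd1 n hn.1
        have e2 : D ∣ n' := by
          rw [hD, ← hn'.2, ← hrr n' hn'.1 hn'.2]
          exact hd1 n' hn'.1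
        exact modEq_of_dvd (hS n hn.1).1.lehmer (hS n' hn'.1).1.lehmer e1 e2
          (Nat.totient_dvd_of_dvd e1) (Nat.totient_dvd_of_dvd e2)
    have hv0 : (0 : ℝ) < v n₀ := by exact_mod_cast hvpos n₀ hn₀
    have hD0 : 0 < D := by
      rcases Nat.eq_zero_or_pos D with h0 | h0
      · rw [h0] at hDn
        have := hI.lehmer.one_lt
        rw [zero_dvd_iff] at hDn
        omega
      · exact h0
    have hφ0 : 0 < D.totient := Nat.totient_pos.mpr hD0
    have hk0 : 0 < k := by have := hI.two_le; omega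
    have h2 : ((X / (D * D.totient) : ℕ) : ℝ) ≤ (X * k * L ^ 2 / R ^ 2) * (1 / (v n₀ : ℝ) ^ 2) := by
      refine Nat.cast_div_le.trans ?_
      have hDR : (D : ℝ) < k * D.totient := by exact_mod_cast hDφ
      have hDv : (v n₀ : ℝ) * R ≤ L * D := by
        have h3 : (R : ℝ) ≤ L * r n₀ := by exact_mod_cast (hd4 n₀ hn₀).le
        calc (v n₀ : ℝ) * R ≤ v n₀ * (L * r n₀) := mul_le_mul_of_nonneg_left h3 hv0.le
          _ = L * D := by rw [hD]; push_cast; ring
      have hDpos : (0 : ℝ) < D := by exact_mod_cast hD0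
      have hφpos : (0 : ℝ) < D.totient := by exact_mod_cast hφ0
      have hkpos : (0 : ℝ) < k := by exact_mod_cast hk0
      rw [mul_one_div, div_div, Nat.cast_mul, div_le_div_iff₀ (by positivity) (by positivity)]
      have h4 : (R : ℝ) ^ 2 * (v n₀ : ℝ) ^ 2 ≤ ((L : ℝ) * D) ^ 2 := by
        have h4' : ((v n₀ : ℝ) * R) ^ 2 ≤ ((L : ℝ) * D) ^ 2 := pow_le_pow_left₀ (by positivity) hDv 2
        linarith [h4', mul_pow (v n₀ : ℝ) (R : ℝ) 2]
      have h5 : (D : ℝ) ^ 2 ≤ k * (D * D.totient) := by nlinarith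
      calc (X : ℝ) * (R ^ 2 * (v n₀ : ℝ) ^ 2) ≤ X * ((L : ℝ) * D) ^ 2 :=
            mul_le_mul_of_nonneg_left h4 (by positivity)
        _ = X * L ^ 2 * D ^ 2 := by ring
        _ ≤ X * L ^ 2 * (k * (D * D.totient)) := mul_le_mul_of_nonneg_left h5 (by positivity)
        _ = _ := by ring
    have h3 : (#{n ∈ S | v n = v n₀} : ℝ) ≤ ((X / (D * D.totient) : ℕ) : ℝ) + 1 := by exact_mod_cast h1
    linarith
  have hcard : (#S : ℝ) = ∑ u ∈ V, (#{n ∈ S | v n = u} : ℝ) := by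
    have := Finset.card_eq_sum_card_fiberwise (s := S) (t := V) (f := v)
      (fun n hn => by rw [hV]; exact Finset.mem_coe.mpr (Finset.mem_image_of_mem v hn))
    exact_mod_cast this
  rw [hcard]
  refine (Finset.sum_le_sum hfib).trans ?_
  rw [Finset.sum_add_distrib, ← Finset.mul_sum, Finset.sum_const, nsmul_eq_mul, mul_one]
  have hVlo : ∀ u ∈ V, 1 ≤ u ∧ dmin / R ≤ (u : ℝ) := by
    intro u hu
    rw [hV, Finset.mem_image] at hu
    obtain ⟨n₀, hn₀, rfl⟩ := hu
    exact ⟨hvpos n₀ hn₀, hvlo n₀ hn₀⟩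
  have hsum := sum_inv_sq V (dmin / R) (by positivity) hVlo
  have hVcard : (#V : ℝ) ≤ L * dmax * Real.sqrt H / R := by
    have h3 : (0 : ℝ) ≤ L * dmax * Real.sqrt H / R := by positivity
    have h1 : V ⊆ Finset.Icc 1 ⌊L * dmax * Real.sqrt H / R⌋₊ := by
      intro u hu
      rw [hV, Finset.mem_image] at hu
      obtain ⟨n₀, hn₀, rfl⟩ := hu
      rw [Finset.mem_Icc]
      exact ⟨hvpos n₀ hn₀, Nat.le_floor (hvhi n₀ hn₀)⟩
    have h2 := Finset.card_le_card h1
    rw [Nat.card_Icc, Nat.add_sub_cancel] at h2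
    calc (#V : ℝ) ≤ (⌊L * dmax * Real.sqrt H / R⌋₊ : ℝ) := by exact_mod_cast h2
      _ ≤ _ := Nat.floor_le h3
  have h6 : (X * k * L ^ 2 / R ^ 2 : ℝ) * ∑ u ∈ V, 1 / (u : ℝ) ^ 2 ≤
      2 * X * k * L ^ 2 / (R * dmin) := by
    calc (X * k * L ^ 2 / R ^ 2 : ℝ) * ∑ u ∈ V, 1 / (u : ℝ) ^ 2
        ≤ (X * k * L ^ 2 / R ^ 2 : ℝ) * (2 / (dmin / R)) :=
          mul_le_mul_of_nonneg_left hsum (by positivity)
      _ = _ := by field_simp
  linarith

end Pool.Agent.Helper6.LehmerCount
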