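import Mathlib
import Pool.Agent.Helper6.LehmerCount.Good
import Pool.Agent.Helper6.LehmerCount.Rare
import Pool.Agent.Helper6.LehmerCount.Density

/-!
Counting Lehmer numbers, part 7: the bound for a dyadic block.
-/

namespace Pool.Agent.Helper6.LehmerCount

open Finset Pool.Agent.Helper6.Lehmer

theorem real_aux {L R X k s T q : ℝ} (hL : 1 ≤ L) (hR : 1 ≤ R) (hT : 1 ≤ T) (hs : 1 ≤ s)
    (hX : X ≤ s ^ 2) (hk0 : 0 ≤ k) (hk : k ≤ L) (h1 : q ≤ 2 * L * R) (h2 : T ^ 2 ≤ q) :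
    L * (L * s / T) * q / R + 2 * X * k * L ^ 2 / (R * (s / (4 * T))) ≤ 18 * L ^ 4 * s / T := by
  have hL0 : 0 < L := by linarith
  have hR0 : 0 < R := by linarith
  have hT0 : 0 < T := by linarith
  have hs0 : 0 < s := by linarith
  have e1 : L * (L * s / T) * q / R ≤ 2 * L ^ 3 * s / T := by
    rw [div_le_div_iff₀ (by positivity) (by positivity)]
    calc L * (L * s / T) * q * T ≤ L * (L * s / T) * (2 * L * R) * T := by gcongr
      _ = 2 * L ^ 3 * s * R := by field_simp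
  have e2 : 2 * X * k * L ^ 2 / (R * (s / (4 * T))) ≤ 16 * L ^ 4 * s / T := by
    have h3 : T ^ 2 ≤ 2 * L * R := h2.trans h1
    rw [div_le_div_iff₀ (by positivity) (by positivity)]
    calc 2 * X * k * L ^ 2 * T ≤ 2 * s ^ 2 * L * L ^ 2 * T := by gcongr
      _ = (2 * L ^ 3 * s ^ 2 / T) * T ^ 2 := by field_simp
      _ ≤ (2 * L ^ 3 * s ^ 2 / T) * (2 * L * R) := by gcongr
      _ = 16 * L ^ 4 * s * (R * (s / (4 * T))) := by field_simp; ring
  have e3 : 2 * L ^ 3 * s / T ≤ 2 * L ^ 4 * s / T := by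
    have : L ^ 3 ≤ L ^ 4 := pow_le_pow_right₀ hL (by norm_num)
    gcongr
  calc _ ≤ 2 * L ^ 3 * s / T + 16 * L ^ 4 * s / T := add_le_add e1 e2
    _ ≤ 2 * L ^ 4 * s / T + 16 * L ^ 4 * s / T := by linarith
    _ = _ := by ring

/-- good class with parameters -/
theorem good_class {S : Finset ℕ} {k L b X s T : ℕ} (hL1 : 1 ≤ L) (hT1 : 1 ≤ T) (hs : 1 ≤ s)
    (hXs : X < s ^ 2) (hkL : k ≤ L) (hLT : L ≤ T ^ 4) (hb : T ^ 4 ≤ 2 ^ b)
    (hS : ∀ n ∈ S, Idx n k ∧ n ≤ X ∧ 2 * n.primeFactors.card ≤ L ∧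
      ∃ d e, Good (2 ^ b) (s / (4 * T)) (L * s / T) n d e) :
    (#S : ℝ) ≤ 18 * L ^ 4 * s / T := by
  have hLR : (1 : ℝ) ≤ L := by exact_mod_cast hL1
  have hTR : (1 : ℝ) ≤ T := by exact_mod_cast hT1
  have hsR : (1 : ℝ) ≤ s := by exact_mod_cast hs
  have hXR : (X : ℝ) ≤ (s : ℝ) ^ 2 := by exact_mod_cast hXs.le
  have hkR : (k : ℝ) ≤ L := by exact_mod_cast hkL
  obtain ⟨R, hR⟩ : ∃ R, R = Nat.sqrt (2 ^ b / L) := ⟨_, rfl⟩
  have hR1 : 1 ≤ R := by
    rw [hR, Nat.succ_le_iff, Nat.sqrt_pos]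
    exact Nat.div_pos (hLT.trans hb) hL1
  have hLR2 : L * R ^ 2 ≤ 2 ^ b := by
    have h1 : R ^ 2 ≤ 2 ^ b / L := by rw [hR, sq]; exact Nat.sqrt_le _
    calc L * R ^ 2 ≤ L * (2 ^ b / L) := Nat.mul_le_mul_left _ h1
      _ ≤ 2 ^ b := Nat.mul_div_le _ _
  have hRR : (1 : ℝ) ≤ R := by exact_mod_cast hR1
  have hsqrt : Real.sqrt ((2 ^ b : ℕ) : ℝ) ≤ 2 * L * R := by
    apply Real.sqrt_le_iff.mpr
    refine ⟨by positivity, ?_⟩
    have h1 : 2 ^ b / L < (R + 1) ^ 2 := by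
      rw [hR]
      exact Nat.lt_succ_sqrt' _
    have h2 : 2 ^ b ≤ (2 * L * R) ^ 2 := by
      rw [Nat.div_lt_iff_lt_mul (by omega)] at h1
      calc 2 ^ b ≤ (R + 1) ^ 2 * L := h1.le
        _ ≤ (R + R) ^ 2 * L := Nat.mul_le_mul_right _ (Nat.pow_le_pow_left (by omega) 2)
        _ = 4 * R ^ 2 * L := by ring
        _ ≤ 4 * R ^ 2 * (L * L) := Nat.mul_le_mul_left _ (Nat.le_mul_of_pos_right L hL1)
        _ = _ := by ring
    exact_mod_cast h2
  have hsqrt2 : (T : ℝ) ^ 2 ≤ Real.sqrt ((2 ^ b : ℕ) : ℝ) := by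
    apply Real.le_sqrt_of_sq_le
    have : ((T ^ 4 : ℕ) : ℝ) ≤ ((2 ^ b : ℕ) : ℝ) := by exact_mod_cast hb
    calc ((T : ℝ) ^ 2) ^ 2 = ((T ^ 4 : ℕ) : ℝ) := by push_cast; ring
      _ ≤ _ := this
  have h1 := good_count (S := S) (k := k) (L := L) (H := 2 ^ b) (R := R) (X := X)
    (dmin := s / (4 * T)) (dmax := L * s / T) (by positivity) (by positivity) hL1 (hLT.trans hb)
    hR1 hLR2 hS
  exact h1.trans (real_aux hLR hRR hTR hsR hXR (by positivity) hkR hsqrt hsqrt2)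

/-- parameters for a block -/
structure Params (Q : Finset ℕ) (B₁ B₂ X l s T : ℕ) (g : ℝ) : Prop where
  hQ3 : ∀ q ∈ Q, 3 ≤ q
  hQp : ∀ q ∈ Q, q.Prime
  hQ1 : ∀ q ∈ Q, B₁ ≤ q
  hQ2 : ∀ q ∈ Q, q ≤ B₂
  hB1 : 1 ≤ B₁
  hB2 : 2 ≤ B₂
  hl : 1 ≤ l
  hX : X < 2 ^ l
  hs : 1 ≤ s
  hXs : X < s ^ 2
  hsX : s ^ 2 ≤ 2 * X
  hT : 1 ≤ T
  hsT : 2 * s * T ≤ X
  hLT : (2 * l) ^ 3 ≤ T ^ 2
  hgrowth : ∀ t : ℕ, 2 * T ^ 4 * s ≤ (2 * T ^ 4) ^ (3 ^ t) → 2 * g ≤ t
  hg0 : 0 ≤ g
  hM : ((16 * T ^ 2 * (2 * l) : ℕ) : ℝ) ≤ Real.exp (g * Real.log B₁)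

theorem Params.L_le {Q : Finset ℕ} {B₁ B₂ X l s T : ℕ} {g : ℝ} (h : Params Q B₁ B₂ X l s T g) :
    2 * l ≤ T := by
  by_contra hcon
  rw [not_le] at hcon
  have h1 := h.hLT
  have h2 : T ^ 2 < (2 * l) ^ 2 := Nat.pow_lt_pow_left hcon (by norm_num)
  have h3 : (2 * l) ^ 2 ≤ (2 * l) ^ 3 := Nat.pow_le_pow_right (by have := h.hl; omega) (by norm_num)
  omega

/-- data for an element of the block -/
theorem Params.data {Q : Finset ℕ} {B₁ B₂ X l s T : ℕ} {g : ℝ} (h : Params Q B₁ B₂ X l s T g)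
    {n : ℕ} (hn : IsLehmer n) (hnX : n ≤ X) (hXn : X < 2 * n) :
    ∃ k d e, Idx n k ∧ k ≤ 2 * l ∧ 2 * n.primeFactors.card ≤ 2 * l ∧ n = d * e ∧ e ≤ s * T ∧
      s * T < 2 * l * e ∧ d < n ∧ e < n ∧ s < 4 * T * d ∧ d * T < 2 * l * s ∧ s < e := by
  obtain ⟨k, hk⟩ := exists_idx hn
  have hsq := hn.squarefree
  have hK := card_primeFactors_lt hsq (lt_of_le_of_lt hnX h.hX)
  have hk2 := hk.index_le
  have hL := h.L_le
  have hl := h.hl
  have hs := h.hs
  have hT := h.hT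
  have hsT : s * T < n := by have := h.hsT; nlinarith
  have hY1 : 1 ≤ s * T := Nat.mul_pos hs hT
  obtain ⟨e, he1, he2, he3⟩ := hk.dense' (L := 2 * l) (by omega) hY1
    (lt_of_lt_of_le hsT (Nat.le_mul_of_pos_left n (by omega)))
  obtain ⟨d, hd⟩ := he1
  have hd0 : 0 < d := by
    rcases Nat.eq_zero_or_pos d with h0 | h0
    · rw [h0, mul_zero] at hd
      have := hn.one_lt
      omega
    · exact h0
  have he0 : 0 < e := by
    rcases Nat.eq_zero_or_pos e with h0 | h0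
    · rw [h0, zero_mul] at hd
      have := hn.one_lt
      omega
    · exact h0
  have hse : s < e := by
    -- s * T < 2 l e ≤ T e
    have h1 : s * T < e * T := by
      calc s * T < 2 * l * e := he3
        _ ≤ T * e := Nat.mul_le_mul_right _ hL
        _ = e * T := by ring
    exact Nat.lt_of_mul_lt_mul_right h1
  refine ⟨k, d, e, hk, by omega, by omega, by rw [hd]; ring, he2, he3, ?_, lt_of_le_of_lt he2 hsT,
    ?_, ?_, hse⟩
  · rw [hd]
    have : 1 < e := by omega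
    nlinarith
  · -- 4 d s T ≥ 4 d e = 4 n > 2 X ≥ s ^ 2
    have h1 : s * s < (4 * T * d) * s := by
      calc s * s = s ^ 2 := by ring
        _ ≤ 2 * X := h.hsX
        _ < 4 * n := by omega
        _ = 4 * (e * d) := by rw [← hd]
        _ ≤ 4 * ((s * T) * d) := Nat.mul_le_mul_left _ (Nat.mul_le_mul_right _ he2)
        _ = _ := by ring
    exact Nat.lt_of_mul_lt_mul_right h1
  · have h1 : (d * T) * s < (2 * l * s) * s := by
      calc (d * T) * s = d * (s * T) := by ring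
        _ < d * (2 * l * e) := Nat.mul_lt_mul_of_pos_left he3 hd0
        _ = 2 * l * (e * d) := by ring
        _ = 2 * l * n := by rw [← hd]
        _ ≤ 2 * l * s ^ 2 := Nat.mul_le_mul_left _ (hnX.trans h.hXs.le)
        _ = _ := by ring
    exact Nat.lt_of_mul_lt_mul_right h1

/-- primes `p ≤ X` such that no element of `Q` divides `p - 1` -/
def thin (Q : Finset ℕ) (X : ℕ) : Finset ℕ := {p ∈ Icc 1 X | p.Prime ∧ ∀ q ∈ Q, ¬ q ∣ p - 1}

theorem thin_prime {Q : Finset ℕ} {X : ℕ} : ∀ p ∈ thin Q X, p.Prime := by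
  intro p hp
  rw [thin, mem_filter] at hp
  exact hp.2.1

/-- the set of `e` with bad initial segments -/
def SmallSeg (T e : ℕ) : Prop :=
  ∃ b, T ^ 4 ≤ 2 ^ b ∧ (∃ p ∈ e.primeFactors, 2 ^ b ≤ p) ∧ (sm (2 ^ b) e) ^ 2 ≤ 2 ^ b

theorem Params.exists_smooth {Q : Finset ℕ} {B₁ B₂ X l s T : ℕ} {g : ℝ}
    (h : Params Q B₁ B₂ X l s T g) {e : ℕ} (he : Squarefree e) (heX : e ≤ X) (hse : s < e)
    (h1 : ¬ SmallSeg T e) (h2 : (om (thin Q X) e : ℝ) < g) :
    ∃ M ∈ smoothSet Q (16 * T ^ 2 * (2 * l) * B₂), M ∣ e.totient ∧ 16 * T ^ 2 * (2 * l) ≤ M := by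
  classical
  have hT := h.hT
  have hl := h.hl
  have hU : 1 ≤ T ^ 4 := Nat.one_le_pow _ _ hT
  have h3 := bad_growth he hU (by
    intro b hb hp
    by_contra hcon
    rw [not_lt] at hcon
    exact h1 ⟨b, hb, hp, hcon⟩)
  have h4 := h.hgrowth e.primeFactors.card
    ((Nat.mul_le_mul_left _ hse.le).trans h3)
  obtain ⟨P, hP⟩ : ∃ P, P = {p ∈ e.primeFactors | ¬ p ∈ thin Q X} := ⟨_, rfl⟩
  have hcard : e.primeFactors.card ≤ om (thin Q X) e + #P := by
    have h5 := Finset.card_filter_add_card_filter_not (s := e.primeFactors) (fun p => p ∈ thin Q X)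
    have h6 : #{p ∈ e.primeFactors | p ∈ thin Q X} ≤ om (thin Q X) e := by
      unfold om
      apply Finset.card_le_card
      intro p hp
      rw [mem_filter] at hp ⊢
      exact ⟨hp.2, Nat.dvd_of_mem_primeFactors hp.1⟩
    rw [hP]
    omega
  have hPg : g ≤ #P := by
    have : (e.primeFactors.card : ℝ) ≤ om (thin Q X) e + #P := by exact_mod_cast hcard
    linarith
  have hex : ∀ p ∈ P, ∃ q ∈ Q, q ∣ p - 1 := by
    intro p hp
    rw [hP, mem_filter, thin, mem_filter, mem_Icc] at hp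
    have hpp := Nat.prime_of_mem_primeFactors hp.1
    have hpe := Nat.le_of_mem_primeFactors hp.1
    by_contra hcon
    push Not at hcon
    exact hp.2 ⟨⟨hpp.one_lt.le, by omega⟩, hpp, hcon⟩
  choose! q hqQ hqd using hex
  have hprod : 16 * T ^ 2 * (2 * l) ≤ ∏ p ∈ P, q p := by
    have h5 : B₁ ^ #P ≤ ∏ p ∈ P, q p := by
      rw [← Finset.prod_const]
      exact Finset.prod_le_prod' (fun p hp => h.hQ1 (q p) (hqQ p hp))
    have hB1 : (1 : ℝ) ≤ B₁ := by exact_mod_cast h.hB1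
    have h6 : ((16 * T ^ 2 * (2 * l) : ℕ) : ℝ) ≤ ((B₁ ^ #P : ℕ) : ℝ) := by
      refine h.hM.trans ?_
      have h7 : ((B₁ ^ #P : ℕ) : ℝ) = Real.exp (#P * Real.log B₁) := by
        push_cast
        rw [mul_comm, Real.exp_mul, Real.exp_log (by linarith), Real.rpow_natCast]
      rw [h7]
      apply Real.exp_le_exp.mpr
      exact mul_le_mul_of_nonneg_right hPg (Real.log_nonneg hB1)
    have h7 : 16 * T ^ 2 * (2 * l) ≤ B₁ ^ #P := by exact_mod_cast h6
    exact h7.trans h5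
  have hM1 : 1 ≤ 16 * T ^ 2 * (2 * l) := by
    have : 0 < T ^ 2 := by positivity
    have : 0 < 16 * T ^ 2 * (2 * l) := by positivity
    omega
  obtain ⟨P', hP', h5, h6⟩ := exists_partial q hM1 h.hB2
    (fun p hp => by have := h.hQ3 _ (hqQ p hp); omega) (fun p hp => h.hQ2 _ (hqQ p hp)) hprod
  refine ⟨∏ p ∈ P', q p, ?_, ?_, h5⟩
  · rw [smoothSet, mem_filter, mem_Icc]
    refine ⟨⟨by omega, h6.le⟩, ?_⟩
    intro r hr
    have hrp := Nat.prime_of_mem_primeFactors hr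
    have hrd := Nat.dvd_of_mem_primeFactors hr
    obtain ⟨p, hp, hpr⟩ := (Prime.dvd_finsetProd_iff hrp.prime _).mp hrd
    have hq := hqQ p (hP' hp)
    have := (Nat.prime_dvd_prime_iff_eq hrp (h.hQp _ hq)).mp hpr
    rw [this]
    exact hq
  · rw [totient_squarefree he]
    have h7 : ∏ p ∈ P', q p ∣ ∏ p ∈ P', (p - 1) :=
      Finset.prod_dvd_prod_of_dvd _ _ (fun p hp => hqd p (hP' hp))
    refine h7.trans ?_
    apply Finset.prod_dvd_prod_of_subset
    intro p hp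
    have := hP' hp
    rw [hP, mem_filter] at this
    exact this.1

theorem Params.block {Q : Finset ℕ} {B₁ B₂ X l s T : ℕ} {g : ℝ} (h : Params Q B₁ B₂ X l s T g)
    {S : Finset ℕ} (hS : ∀ n ∈ S, IsLehmer n ∧ n ≤ X ∧ X < 2 * n) {u : ℝ} (hu : 1 < u) :
    (#S : ℝ) ≤ ((2 * l + 1) * (l + 1)) * (18 * (2 * l) ^ 4 * s / T) +
      (s * T) * Real.exp ((u - 1) * ∑ p ∈ thin Q X, 1 / (p : ℝ) - g * Real.log u) +
      (2 * l * s / T) * (Nat.log 2 (16 * T ^ 2 * (2 * l) * B₂) + 1) ^ #Q := by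
  classical
  have hl := h.hl
  have hs := h.hs
  have hT := h.hT
  have hL := h.L_le
  have hTR : (1 : ℝ) ≤ T := by exact_mod_cast hT
  have hdata : ∀ n ∈ S, ∃ k d e, Idx n k ∧ k ≤ 2 * l ∧ 2 * n.primeFactors.card ≤ 2 * l ∧
      n = d * e ∧ e ≤ s * T ∧
      s * T < 2 * l * e ∧ d < n ∧ e < n ∧ s < 4 * T * d ∧ d * T < 2 * l * s ∧ s < e :=
    fun n hn => h.data (hS n hn).1 (hS n hn).2.1 (hS n hn).2.2
  choose! k d e c1 c2 c3 c4 c5 c6 c7 c8 c9 c10 c11 using hdata
  have hesq : ∀ n ∈ S, Squarefree (e n) := by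
    intro n hn
    have := (hS n hn).1.squarefree
    rw [c4 n hn] at this
    exact this.squarefree_of_dvd (Dvd.intro_left _ rfl)
  have hedvd : ∀ n ∈ S, e n ∣ n := fun n hn => ⟨d n, by rw [mul_comm]; exact c4 n hn⟩
  have hddvd : ∀ n ∈ S, d n ∣ n := fun n hn => ⟨e n, c4 n hn⟩
  have hXe : ∀ n ∈ S, X < e n * (e n).totient := by
    intro n hn
    have h1 := (c1 n hn).lt_mul_totient (hedvd n hn) (c8 n hn)
    have h2 := c2 n hn
    have h3 := c6 n hn
    have h4 := h.hLT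
    have h5 := h.hXs
    have h6 : (2 * l) ^ 2 * (X * (2 * l)) < (2 * l) ^ 2 * (e n) ^ 2 := by
      calc (2 * l) ^ 2 * (X * (2 * l)) = X * (2 * l) ^ 3 := by ring
        _ ≤ s ^ 2 * T ^ 2 := Nat.mul_le_mul h5.le h4
        _ = (s * T) ^ 2 := by ring
        _ < (2 * l * e n) ^ 2 := Nat.pow_lt_pow_left h3 (by norm_num)
        _ = _ := by ring
    have h7 : X * (2 * l) < (e n) ^ 2 := Nat.lt_of_mul_lt_mul_left h6
    have h8 : (e n) ^ 2 ≤ (e n * (e n).totient) * (2 * l) := by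
      calc (e n) ^ 2 = e n * e n := by ring
        _ ≤ e n * (k n * (e n).totient) := Nat.mul_le_mul_left _ h1.le
        _ ≤ e n * ((2 * l) * (e n).totient) :=
            Nat.mul_le_mul_left _ (Nat.mul_le_mul_right _ h2)
        _ = _ := by ring
    exact Nat.lt_of_mul_lt_mul_right (lt_of_lt_of_le h7 h8)
  have hXd : ∀ n ∈ S, ∀ M, 16 * T ^ 2 * (2 * l) ≤ M → X < d n * ((d n).totient * M) := by
    intro n hn M hM
    have h1 := (c1 n hn).lt_mul_totient (hddvd n hn) (c7 n hn)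
    have h2 := c2 n hn
    have h3 := c9 n hn
    have h5 := h.hXs
    calc X < s ^ 2 := h5
      _ ≤ (4 * T * d n) ^ 2 := Nat.pow_le_pow_left h3.le 2
      _ = 16 * T ^ 2 * (d n * d n) := by ring
      _ ≤ 16 * T ^ 2 * (d n * (k n * (d n).totient)) :=
          Nat.mul_le_mul_left _ (Nat.mul_le_mul_left _ h1.le)
      _ ≤ 16 * T ^ 2 * (d n * ((2 * l) * (d n).totient)) :=
          Nat.mul_le_mul_left _ (Nat.mul_le_mul_left _ (Nat.mul_le_mul_right _ h2))
      _ = (d n * (d n).totient) * (16 * T ^ 2 * (2 * l)) := by ring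
      _ ≤ (d n * (d n).totient) * M := Nat.mul_le_mul_left _ hM
      _ = _ := by ring
  obtain ⟨SG, hSG⟩ : ∃ SG, SG = {n ∈ S | SmallSeg T (e n)} := ⟨_, rfl⟩
  obtain ⟨SV, hSV⟩ : ∃ SV, SV = {n ∈ S | ¬ SmallSeg T (e n) ∧ g ≤ (om (thin Q X) (e n) : ℝ)} := ⟨_, rfl⟩
  obtain ⟨SM, hSM⟩ : ∃ SM, SM = {n ∈ S | ¬ SmallSeg T (e n) ∧ (om (thin Q X) (e n) : ℝ) < g} := ⟨_, rfl⟩
  have hcover : S ⊆ SG ∪ SV ∪ SM := by
    intro n hn
    rw [mem_union, mem_union, hSG, hSV, hSM, mem_filter, mem_filter, mem_filter]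
    by_cases h1 : SmallSeg T (e n)
    · exact Or.inl (Or.inl ⟨hn, h1⟩)
    · rcases le_or_gt g (om (thin Q X) (e n) : ℝ) with h2 | h2
      · exact Or.inl (Or.inr ⟨hn, h1, h2⟩)
      · exact Or.inr ⟨hn, h1, h2⟩
  have hcard : (#S : ℝ) ≤ #SG + #SV + #SM := by
    have h1 := (Finset.card_le_card hcover).trans (Finset.card_union_le _ _)
    have h2 := Finset.card_union_le SG SV
    have : #S ≤ #SG + #SV + #SM := by omega
    exact_mod_cast this
  -- the good class
  have hG : (#SG : ℝ) ≤ ((2 * l + 1) * (l + 1)) * (18 * (2 * l) ^ 4 * s / T) := by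
    obtain ⟨C, hC⟩ : ∃ C : ℕ → ℕ → Finset ℕ, C = fun k' b => {n ∈ S | k n = k' ∧ T ^ 4 ≤ 2 ^ b ∧
      (∃ p ∈ (e n).primeFactors, 2 ^ b ≤ p) ∧ (sm (2 ^ b) (e n)) ^ 2 ≤ 2 ^ b} := ⟨_, rfl⟩
    have hsub : SG ⊆ (range (2 * l + 1) ×ˢ range (l + 1)).biUnion (fun x => C x.1 x.2) := by
      intro n hn
      rw [hSG, mem_filter] at hn
      obtain ⟨hn1, b, hb1, hb2, hb3⟩ := hn
      rw [mem_biUnion]
      refine ⟨(k n, b), ?_, ?_⟩
      · rw [mem_product, mem_range, mem_range]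
        refine ⟨by have := c2 n hn1; simp only; omega, ?_⟩
        obtain ⟨p, hp1, hp2⟩ := hb2
        have h1 := Nat.le_of_mem_primeFactors hp1
        have h2 := c8 n hn1
        have h3 := (hS n hn1).2.1
        have h4 := h.hX
        have h5 : 2 ^ b < 2 ^ l := by omega
        have := (Nat.pow_lt_pow_iff_right (by norm_num : 1 < 2)).mp h5
        simp only
        omega
      · simp only [hC, mem_filter]
        exact ⟨hn1, trivial, hb1, hb2, hb3⟩
    have hone : ∀ x ∈ range (2 * l + 1) ×ˢ range (l + 1), (#(C x.1 x.2) : ℝ) ≤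
        18 * (2 * l) ^ 4 * s / T := by
      intro x hx
      rw [mem_product, mem_range, mem_range] at hx
      by_cases hb : T ^ 4 ≤ 2 ^ x.2
      · have h1 := good_class (S := C x.1 x.2) (k := x.1) (L := 2 * l) (b := x.2) (X := X) (s := s)
          (T := T) (by omega) hT hs h.hXs (by omega)
          (hL.trans (Nat.le_self_pow (by norm_num) T)) hb (by
            intro n hn
            simp only [hC, mem_filter] at hn
            obtain ⟨hn1, hn2, _, hn4, hn5⟩ := hn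
            have hI := c1 n hn1
            rw [hn2] at hI
            refine ⟨hI, (hS n hn1).2.1, c3 n hn1, d n, e n, c4 n hn1, ?_, ?_, hn4, hn5⟩
            · rw [div_le_iff₀ (by positivity)]
              have := c9 n hn1
              have h2 : (s : ℝ) ≤ ((4 * T * d n : ℕ) : ℝ) := by exact_mod_cast this.le
              refine h2.trans (le_of_eq ?_)
              push_cast
              ring
            · rw [le_div_iff₀ (by positivity)]
              have := c10 n hn1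
              exact_mod_cast this.le)
        refine h1.trans (le_of_eq ?_)
        push_cast
        ring
      · have : C x.1 x.2 = ∅ := by
          rw [Finset.eq_empty_iff_forall_notMem]
          intro n hn
          simp only [hC, mem_filter] at hn
          exact hb hn.2.2.1
        rw [this, Finset.card_empty, Nat.cast_zero]
        positivity
    have h1 := (Finset.card_le_card hsub).trans Finset.card_biUnion_le
    have h2 : (#SG : ℝ) ≤ ∑ x ∈ range (2 * l + 1) ×ˢ range (l + 1), (#(C x.1 x.2) : ℝ) := by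
      exact_mod_cast h1
    refine h2.trans ((Finset.sum_le_sum hone).trans (le_of_eq ?_))
    rw [Finset.sum_const, Finset.card_product, Finset.card_range, Finset.card_range, nsmul_eq_mul]
    push_cast
    ring
  -- the rare class
  have hV : (#SV : ℝ) ≤
      (s * T) * Real.exp ((u - 1) * ∑ p ∈ thin Q X, 1 / (p : ℝ) - g * Real.log u) := by
    have h1 := rare (thin Q X) thin_prime (s * T) u g hu
    have h2 : #SV ≤ #{e ∈ Icc 1 (s * T) | g ≤ (om (thin Q X) e : ℝ)} := by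
      apply inj_count (X := X) e (fun e => e) (fun e => e.totient)
      · intro n hn
        rw [hSV, mem_filter] at hn
        exact ⟨(hS n hn.1).1, (hS n hn.1).2.1⟩
      · intro n hn
        rw [hSV, mem_filter] at hn
        rw [mem_filter, mem_Icc]
        have := c11 n hn.1
        exact ⟨⟨by omega, c5 n hn.1⟩, hn.2.2⟩
      · intro n hn
        rw [hSV, mem_filter] at hn
        exact hedvd n hn.1
      · intro n hn
        rw [hSV, mem_filter] at hn
        exact Nat.totient_dvd_of_dvd (hedvd n hn.1)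
      · intro n hn
        rw [hSV, mem_filter] at hn
        exact hXe n hn.1
    have h3 : (#SV : ℝ) ≤ (#{e ∈ Icc 1 (s * T) | g ≤ (om (thin Q X) e : ℝ)} : ℝ) := by
      exact_mod_cast h2
    refine h3.trans (h1.trans (le_of_eq ?_))
    push_cast
    ring
  -- the main class
  have hM : (#SM : ℝ) ≤ (2 * l * s / T) * (Nat.log 2 (16 * T ^ 2 * (2 * l) * B₂) + 1) ^ #Q := by
    have hex : ∀ n ∈ SM, ∃ M ∈ smoothSet Q (16 * T ^ 2 * (2 * l) * B₂), M ∣ (e n).totient ∧
        16 * T ^ 2 * (2 * l) ≤ M := by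
      intro n hn
      rw [hSM, mem_filter] at hn
      exact h.exists_smooth (hesq n hn.1) ((c8 n hn.1).le.trans (hS n hn.1).2.1) (c11 n hn.1)
        hn.2.1 hn.2.2
    choose! M hM1 hM2 hM3 using hex
    have h2 : #SM ≤ #(Icc 1 (2 * l * s / T) ×ˢ smoothSet Q (16 * T ^ 2 * (2 * l) * B₂)) := by
      apply inj_count (X := X) (fun n => (d n, M n)) (fun x => x.1) (fun x => x.1.totient * x.2)
      · intro n hn
        rw [hSM, mem_filter] at hn
        exact ⟨(hS n hn.1).1, (hS n hn.1).2.1⟩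
      · intro n hn
        have hn' := hn
        rw [hSM, mem_filter] at hn'
        rw [mem_product, mem_Icc]
        refine ⟨⟨?_, ?_⟩, hM1 n hn⟩
        · have := c9 n hn'.1
          rcases Nat.eq_zero_or_pos (d n) with h0 | h0
          · rw [h0] at this; omega
          · exact h0
        · rw [Nat.le_div_iff_mul_le (by omega)]
          exact (c10 n hn'.1).le
      · intro n hn
        rw [hSM, mem_filter] at hn
        exact hddvd n hn.1
      · intro n hn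
        have hn' := hn
        rw [hSM, mem_filter] at hn'
        have hcop : (d n).Coprime (e n) := by
          have := (hS n hn'.1).1.squarefree
          rw [c4 n hn'.1] at this
          exact Nat.coprime_of_squarefree_mul this
        have h3 : n.totient = (d n).totient * (e n).totient := by
          conv_lhs => rw [c4 n hn'.1]
          exact Nat.totient_mul hcop
        rw [h3]
        exact Nat.mul_dvd_mul_left _ (hM2 n hn)
      · intro n hn
        have hn' := hn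
        rw [hSM, mem_filter] at hn'
        exact hXd n hn'.1 (M n) (hM3 n hn)
    rw [Finset.card_product, Nat.card_Icc, Nat.add_sub_cancel] at h2
    have h3 : (#SM : ℝ) ≤ ((2 * l * s / T : ℕ) : ℝ) *
        (((Nat.log 2 (16 * T ^ 2 * (2 * l) * B₂) + 1) ^ #Q : ℕ) : ℝ) := by
      have h4 := h2.trans (Nat.mul_le_mul_left _ (card_smoothSet Q (16 * T ^ 2 * (2 * l) * B₂)))
      exact_mod_cast h4
    refine h3.trans ?_
    have h5 : ((2 * l * s / T : ℕ) : ℝ) ≤ 2 * l * s / T := by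
      refine Nat.cast_div_le.trans (le_of_eq ?_)
      push_cast
      ring
    push_cast
    gcongr
  linarith

end Pool.Agent.Helper6.LehmerCount
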