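import Mathlib
import Pool.Agent.Helper6.LehmerCount.Block

/-!
Counting Lehmer numbers, part 8: choice of the set of primes, and growth of elementary functions.
-/

namespace Pool.Agent.Helper6.LehmerCount

open Finset Filter

theorem one_add_sum_le_prod (Q : Finset ℕ) (f : ℕ → ℝ) (hf : ∀ q, 0 ≤ f q) :
    1 + ∑ q ∈ Q, f q ≤ ∏ q ∈ Q, (1 + f q) := by
  induction Q using Finset.induction_on with
  | empty => simp
  | @insert a S ha ih =>
    rw [Finset.sum_insert ha, Finset.prod_insert ha]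
    have h1 := hf a
    have h2 : 0 ≤ ∑ q ∈ S, f q := Finset.sum_nonneg (fun q _ => hf q)
    nlinarith

/-- There are sets of large primes with a large product `∏ (1 + 1/q)`. -/
theorem exists_Q (B₁ : ℕ) (G₀ : ℝ) : ∃ Q : Finset ℕ, ∃ B₂ : ℕ, (∀ q ∈ Q, q.Prime) ∧
    (∀ q ∈ Q, B₁ ≤ q) ∧ (∀ q ∈ Q, q ≤ B₂) ∧ 2 ≤ B₂ ∧ G₀ ≤ ∏ q ∈ Q, (1 + 1 / (q : ℝ)) := by
  classical
  have h1 := not_summable_one_div_on_primes
  rw [not_summable_iff_tendsto_nat_atTop_of_nonneg] at h1
  · obtain ⟨n, hn⟩ := (h1.eventually (eventually_ge_atTop (G₀ + B₁))).exists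
    refine ⟨(range n).filter (fun q => q.Prime ∧ B₁ ≤ q), n + 2, ?_, ?_, ?_, by omega, ?_⟩
    · intro q hq; exact (mem_filter.mp hq).2.1
    · intro q hq; exact (mem_filter.mp hq).2.2
    · intro q hq
      have := mem_range.mp (mem_filter.mp hq).1
      omega
    · have h2 := one_add_sum_le_prod ((range n).filter (fun q => q.Prime ∧ B₁ ≤ q))
        (fun q => 1 / (q : ℝ)) (fun q => by positivity)
      refine le_trans ?_ h2
      have h3 : ∑ i ∈ range n, Set.indicator {p : ℕ | p.Prime} (fun n : ℕ => (1 : ℝ) / n) i ≤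
          ∑ q ∈ range n with (q.Prime ∧ B₁ ≤ q), 1 / (q : ℝ) + B₁ := by
        have h4 : ∀ i ∈ range n, Set.indicator {p : ℕ | p.Prime} (fun n : ℕ => (1 : ℝ) / n) i ≤
            (if i.Prime ∧ B₁ ≤ i then 1 / (i : ℝ) else 0) + (if i < B₁ then 1 else 0) := by
          intro i _
          by_cases hi : i.Prime
          · rw [Set.indicator_of_mem (by exact hi)]
            rcases Nat.lt_or_ge i B₁ with h5 | h5
            · rw [if_neg (by omega), if_pos h5]
              have h6 : (1 : ℝ) ≤ i := by exact_mod_cast hi.one_lt.le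
              rw [zero_add, div_le_one (by linarith)]
              exact h6
            · rw [if_pos ⟨hi, h5⟩, if_neg (by omega), add_zero]
          · rw [Set.indicator_of_notMem (by exact hi)]
            have h5 : (0 : ℝ) ≤ (if i.Prime ∧ B₁ ≤ i then 1 / (i : ℝ) else 0) := by
              split_ifs <;> positivity
            have h6 : (0 : ℝ) ≤ (if i < B₁ then 1 else 0) := by split_ifs <;> norm_num
            linarith
        refine (Finset.sum_le_sum h4).trans ?_
        rw [Finset.sum_add_distrib, ← Finset.sum_filter, ← Finset.sum_filter]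
        have h5 : ∑ a ∈ range n with a < B₁, (1 : ℝ) ≤ B₁ := by
          rw [Finset.sum_const, nsmul_eq_mul, mul_one]
          have : #((range n).filter (fun a => a < B₁)) ≤ #(range B₁) := by
            apply Finset.card_le_card
            intro x hx
            rw [mem_filter] at hx
            exact mem_range.mpr hx.2
          rw [Finset.card_range] at this
          exact_mod_cast this
        linarith
      linarith
  · intro n
    apply Set.indicator_nonneg
    intro x _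
    positivity

/-- growth conditions -/
theorem eventually_pow (a : ℕ) : ∀ᶠ l : ℕ in atTop, 16 * l ^ (2 * a) ≤ 2 ^ l := by
  have h1 := tendsto_pow_const_div_const_pow_of_one_lt (2 * a) (r := 2) (by norm_num)
  have h2 := h1.eventually (gt_mem_nhds (show (0 : ℝ) < 1 / 16 by norm_num))
  filter_upwards [h2] with l hl
  rw [div_lt_iff₀ (by positivity)] at hl
  have h3 : (16 : ℝ) * (l : ℝ) ^ (2 * a) ≤ 2 ^ l := by linarith
  exact_mod_cast h3

theorem eventually_log_pow (c d : ℝ) (hc : 0 ≤ c) (hd : 0 ≤ d) (N : ℕ) :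
    ∀ᶠ l : ℕ in atTop, (c + d * Real.log l) ^ N ≤ l := by
  have hcd : 0 < (c + d + 1) ^ N := by positivity
  have h1 := (Real.isLittleO_pow_log_id_atTop (n := N)).def (inv_pos.mpr hcd)
  have h2 := tendsto_natCast_atTop_atTop (R := ℝ) |>.eventually h1
  have h3 := tendsto_natCast_atTop_atTop (R := ℝ) |>.eventually (eventually_ge_atTop (Real.exp 1))
  filter_upwards [h2, h3] with l hl hl3
  have hl0 : (0 : ℝ) < l := lt_of_lt_of_le (Real.exp_pos 1) hl3
  have hlog : 1 ≤ Real.log l := by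
    rw [Real.le_log_iff_exp_le hl0]
    exact hl3
  simp only [id, Real.norm_eq_abs] at hl
  rw [abs_of_nonneg (by positivity), abs_of_nonneg hl0.le] at hl
  calc (c + d * Real.log l) ^ N ≤ ((c + d + 1) * Real.log l) ^ N := by
        apply pow_le_pow_left₀ (by positivity)
        nlinarith
    _ = (c + d + 1) ^ N * Real.log l ^ N := mul_pow _ _ _
    _ ≤ (c + d + 1) ^ N * (((c + d + 1) ^ N)⁻¹ * l) := mul_le_mul_of_nonneg_left hl hcd.le
    _ = l := by field_simp

theorem half_log_three : Real.log 3 / 2 ≤ 11 / 20 := by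
  have h1 : Real.log 3 ≤ 1.1 := by
    rw [Real.log_le_iff_le_exp (by norm_num)]
    have h2 : (3 : ℝ) ≤ (2.7182818283 : ℝ) ^ (1.1 : ℝ) := by
      have h3 : (3 : ℝ) ^ (10 : ℕ) ≤ (2.7182818283 : ℝ) ^ (11 : ℕ) := by norm_num
      have h4 : ((3 : ℝ) ^ (10 : ℕ)) ^ ((1 : ℝ) / 10) ≤ ((2.7182818283 : ℝ) ^ (11 : ℕ)) ^ ((1 : ℝ) / 10) :=
        Real.rpow_le_rpow (by positivity) h3 (by norm_num)
      rw [← Real.rpow_natCast, ← Real.rpow_mul (by norm_num), ← Real.rpow_natCast,
        ← Real.rpow_mul (by norm_num)] at h4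
      norm_num at h4 ⊢
      exact h4
    refine h2.trans ?_
    rw [← Real.exp_one_rpow]
    exact Real.rpow_le_rpow (by norm_num) Real.exp_one_gt_d9.le (by norm_num)
  linarith

theorem eventually_growth (a : ℕ) : ∀ᶠ l : ℕ in atTop,
    Real.exp (Real.log 3 / 2 * Real.log l) * (Real.log 2 + 4 * a * Real.log l) <
      ((l : ℝ) - 1) / 2 * Real.log 2 := by
  have h1 := (tendsto_rpow_atTop (show (0 : ℝ) < 7 / 20 by norm_num)).eventually
    (eventually_gt_atTop ((1 + 40 * (a : ℝ)) * 6))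
  have h2 := tendsto_natCast_atTop_atTop (R := ℝ) |>.eventually h1
  filter_upwards [h2, eventually_ge_atTop 2] with l hl hl2
  have hl0 : (2 : ℝ) ≤ l := by exact_mod_cast hl2
  have hlpos : (0 : ℝ) < l := by linarith
  have hlog0 : 0 ≤ Real.log l := Real.log_nonneg (by linarith)
  have h3 : Real.exp (Real.log 3 / 2 * Real.log l) ≤ (l : ℝ) ^ ((11 : ℝ) / 20) := by
    rw [Real.rpow_def_of_pos hlpos]
    apply Real.exp_le_exp.mpr
    rw [mul_comm (Real.log (l : ℝ))]
    exact mul_le_mul_of_nonneg_right half_log_three hlog0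
  have h4 : Real.log l ≤ 10 * (l : ℝ) ^ ((1 : ℝ) / 10) := by
    have := Real.log_le_rpow_div hlpos.le (show (0 : ℝ) < 1 / 10 by norm_num)
    linarith
  have h5 : (1 : ℝ) ≤ (l : ℝ) ^ ((1 : ℝ) / 10) := Real.one_le_rpow (by linarith) (by norm_num)
  have h6 : Real.log 2 + 4 * a * Real.log l ≤ (1 + 40 * a) * (l : ℝ) ^ ((1 : ℝ) / 10) := by
    have h7 : Real.log 2 ≤ 1 := by linarith [Real.log_two_lt_d9]
    have h8 : 4 * (a : ℝ) * Real.log l ≤ 4 * a * (10 * (l : ℝ) ^ ((1 : ℝ) / 10)) :=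
      mul_le_mul_of_nonneg_left h4 (by positivity)
    nlinarith
  have h7 : (l : ℝ) ^ ((11 : ℝ) / 20) * (l : ℝ) ^ ((1 : ℝ) / 10) * (l : ℝ) ^ ((7 : ℝ) / 20) = l := by
    rw [← Real.rpow_add hlpos, ← Real.rpow_add hlpos]
    norm_num
  have hp1 : 0 < (l : ℝ) ^ ((11 : ℝ) / 20) := Real.rpow_pos_of_pos hlpos _
  have hp2 : 0 < (l : ℝ) ^ ((1 : ℝ) / 10) := Real.rpow_pos_of_pos hlpos _
  have h8 : (l : ℝ) / 6 ≤ ((l : ℝ) - 1) / 2 * Real.log 2 := by
    have := Real.log_two_gt_d9
    nlinarith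
  have h9 : Real.exp (Real.log 3 / 2 * Real.log l) * (Real.log 2 + 4 * a * Real.log l) ≤
      (l : ℝ) ^ ((11 : ℝ) / 20) * ((1 + 40 * a) * (l : ℝ) ^ ((1 : ℝ) / 10)) := by
    apply mul_le_mul h3 h6 _ hp1.le
    have : 0 ≤ Real.log 2 := Real.log_nonneg (by norm_num)
    positivity
  refine lt_of_le_of_lt h9 (lt_of_lt_of_le ?_ h8)
  have h10 : (l : ℝ) ^ ((11 : ℝ) / 20) * (l : ℝ) ^ ((1 : ℝ) / 10) * ((1 + 40 * a) * 6) <
      (l : ℝ) ^ ((11 : ℝ) / 20) * (l : ℝ) ^ ((1 : ℝ) / 10) * (l : ℝ) ^ ((7 : ℝ) / 20) :=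
    mul_lt_mul_of_pos_left hl (by positivity)
  rw [h7] at h10
  linarith

end Pool.Agent.Helper6.LehmerCount
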