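import Mathlib
import Pool.Agent.Helper6.LehmerCount.Choose

/-!
Counting Lehmer numbers, part 9: the final bound.
-/

namespace Pool.Agent.Helper6.LehmerCount

open Finset Filter Pool.Agent.Helper6.Lehmer

/-- the sum of the reciprocals of the thin primes -/
theorem sum_thin {Q : Finset ℕ} (hQ : ∀ p ∈ Q, 3 ≤ p) (hQp : ∀ p ∈ Q, p.Prime)
    {i₀ : ℕ} (hi₀ : 1 ≤ i₀) (hQi : ∀ q ∈ Q, q ≤ 2 ^ i₀) {X b : ℕ} (hb : 128 * i₀ ≤ b)
    (hXb : X < 2 ^ b) :
    ∑ p ∈ thin Q X, (1 : ℝ) / p ≤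
      (342 / ∏ q ∈ Q, (1 + 1 / (q : ℝ))) * (1 + Real.log b) + (2 ^ 18 + 2 ^ (128 * i₀)) := by
  classical
  have h1 := sum_inv_le (W := thin Q X) hQ hQp thin_prime (by
    intro p hp q hq
    rw [thin, mem_filter] at hp
    exact hp.2.2 q hq) hi₀ hQi hb
  have h2 : ∑ p ∈ thin Q X, (1 : ℝ) / p ≤
      ∑ p ∈ thin Q X with (2 ^ (128 * i₀) < p ∧ p ≤ 2 ^ b), (1 : ℝ) / p + 2 ^ (128 * i₀) := by
    rw [← Finset.sum_filter_add_sum_filter_not (thin Q X) (fun p => 2 ^ (128 * i₀) < p ∧ p ≤ 2 ^ b)]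
    have h3 : ∑ p ∈ thin Q X with ¬ (2 ^ (128 * i₀) < p ∧ p ≤ 2 ^ b), (1 : ℝ) / p ≤ 2 ^ (128 * i₀) := by
      have h4 : ∀ p ∈ (thin Q X).filter (fun p => ¬ (2 ^ (128 * i₀) < p ∧ p ≤ 2 ^ b)),
          (1 : ℝ) / p ≤ 1 := by
        intro p hp
        have hpp := thin_prime p (mem_filter.mp hp).1
        have h6 : (1 : ℝ) ≤ p := by exact_mod_cast hpp.one_lt.le
        rw [div_le_one (by linarith)]
        exact h6
      refine (Finset.sum_le_sum h4).trans ?_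
      rw [Finset.sum_const, nsmul_eq_mul, mul_one]
      have h5 : (thin Q X).filter (fun p => ¬ (2 ^ (128 * i₀) < p ∧ p ≤ 2 ^ b)) ⊆
          Icc 1 (2 ^ (128 * i₀)) := by
        intro p hp
        rw [mem_filter, thin, mem_filter, mem_Icc] at hp
        rw [mem_Icc]
        refine ⟨hp.1.1.1, ?_⟩
        by_contra hcon
        exact hp.2 ⟨by omega, by omega⟩
      have h6 := Finset.card_le_card h5
      rw [Nat.card_Icc, Nat.add_sub_cancel] at h6
      exact_mod_cast h6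
    linarith
  linarith

theorem block_final (A : ℕ) : ∃ C : ℝ, ∃ l₀ : ℕ, 0 ≤ C ∧ ∀ X l : ℕ, ∀ S : Finset ℕ,
    X < 2 ^ l → 2 ^ l ≤ 2 * X → l₀ ≤ l → (∀ n ∈ S, IsLehmer n ∧ n ≤ X ∧ X < 2 * n) →
    (#S : ℝ) ≤ C * Real.sqrt X / (l : ℝ) ^ A := by
  classical
  obtain ⟨a, ha⟩ : ∃ a, a = A + 6 := ⟨_, rfl⟩
  obtain ⟨B₁, hB₁⟩ : ∃ B₁ : ℕ, B₁ = ⌈Real.exp (8 * a + 8)⌉₊ + 3 := ⟨_, rfl⟩
  obtain ⟨u, hu⟩ : ∃ u : ℝ, u = Real.exp (4 * (2 * a + 1)) := ⟨_, rfl⟩
  obtain ⟨Q, B₂, hQp, hQ1, hQ2, hB2, hQG⟩ := exists_Q B₁ (684 * u)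
  obtain ⟨G, hG⟩ : ∃ G : ℝ, G = ∏ q ∈ Q, (1 + 1 / (q : ℝ)) := ⟨_, rfl⟩
  rw [← hG] at hQG
  have hu1 : 1 < u := by
    rw [hu]
    apply Real.one_lt_exp_iff.mpr
    positivity
  have hGpos : 0 < G := by nlinarith
  obtain ⟨i₀, hi₀⟩ : ∃ i₀, i₀ = B₂ + 1 := ⟨_, rfl⟩
  have hQi : ∀ q ∈ Q, q ≤ 2 ^ i₀ := by
    intro q hq
    have h1 := hQ2 q hq
    have h2 : i₀ < 2 ^ i₀ := Nat.lt_two_pow_self
    omega
  have hQ3 : ∀ q ∈ Q, 3 ≤ q := by
    intro q hq
    have := hQ1 q hq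
    omega
  obtain ⟨CQ, hCQ⟩ : ∃ CQ : ℝ, CQ = 2 ^ 18 + 2 ^ (128 * i₀) := ⟨_, rfl⟩
  obtain ⟨c0, hc0⟩ : ∃ c0 : ℝ, c0 = Real.exp (1 / 2 + (u - 1) * CQ) := ⟨_, rfl⟩
  have hc0pos : 0 < c0 := by rw [hc0]; exact Real.exp_pos _
  -- growth conditions
  have hev1 := eventually_pow a
  have hev2 := eventually_growth a
  have hev3 := eventually_log_pow (Real.log (32 * B₂) * 2 + 1) (2 * (2 * a + 1)) (by
    have : 0 ≤ Real.log (32 * B₂) := Real.log_nonneg (by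
      have : (2 : ℝ) ≤ B₂ := by exact_mod_cast hB2
      linarith)
    linarith) (by positivity) #Q
  obtain ⟨l₀, hl₀⟩ := eventually_atTop.mp (hev1.and (hev2.and hev3))
  refine ⟨2 * (1730 + c0), max l₀ (max (128 * i₀) 32), by positivity, ?_⟩
  intro X l S hXl hXl2 hl hS
  have hll0 : l₀ ≤ l := le_trans (le_max_left _ _) hl
  have hl128 : 128 * i₀ ≤ l := le_trans (le_max_left _ _) (le_trans (le_max_right _ _) hl)
  have hl32 : 32 ≤ l := le_trans (le_max_right _ _) (le_trans (le_max_right _ _) hl)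
  obtain ⟨E1, E2, E3⟩ := hl₀ l hll0
  have hlR : (32 : ℝ) ≤ l := by exact_mod_cast hl32
  have hlpos : (0 : ℝ) < l := by linarith
  have hlog0 : 0 ≤ Real.log l := Real.log_nonneg (by linarith)
  obtain ⟨s, hs⟩ : ∃ s, s = Nat.sqrt X + 1 := ⟨_, rfl⟩
  obtain ⟨T, hT⟩ : ∃ T, T = l ^ a := ⟨_, rfl⟩
  have hT1 : 1 ≤ T := by rw [hT]; exact Nat.one_le_pow _ _ (by omega)
  have hXbig : 2 ^ 31 ≤ X := by
    have : 2 ^ 32 ≤ 2 ^ l := Nat.pow_le_pow_right (by norm_num) hl32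
    omega
  have hXs : X < s ^ 2 := by rw [hs]; exact Nat.lt_succ_sqrt' X
  have hsX : s ^ 2 ≤ 2 * X := by
    have h1 : Nat.sqrt X * Nat.sqrt X ≤ X := Nat.sqrt_le X
    have h2 : 3 ≤ Nat.sqrt X := by
      rw [Nat.le_sqrt]
      omega
    rw [hs]
    nlinarith
  have hsT : 2 * s * T ≤ X := by
    have h1 : (2 * s * T) ^ 2 ≤ X ^ 2 := by
      calc (2 * s * T) ^ 2 = 4 * s ^ 2 * T ^ 2 := by ring
        _ ≤ 4 * (2 * X) * T ^ 2 := Nat.mul_le_mul_right _ (Nat.mul_le_mul_left _ hsX)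
        _ = X * (8 * T ^ 2) := by ring
        _ ≤ X * X := by
            apply Nat.mul_le_mul_left
            have h2 : T ^ 2 = l ^ (2 * a) := by rw [hT, ← pow_mul]; congr 1; ring
            rw [h2]
            omega
        _ = X ^ 2 := by ring
    exact (Nat.pow_le_pow_iff_left (by norm_num)).mp h1
  have hLT : (2 * l) ^ 3 ≤ T ^ 2 := by
    calc (2 * l) ^ 3 = 8 * l ^ 3 := by ring
      _ ≤ l * l ^ 3 := Nat.mul_le_mul_right _ (by omega)
      _ = l ^ 4 := by ring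
      _ ≤ l ^ (2 * a) := Nat.pow_le_pow_right (by omega) (by omega)
      _ = T ^ 2 := by rw [hT, ← pow_mul]; congr 1; ring
  obtain ⟨g, hg⟩ : ∃ g : ℝ, g = Real.log l / 4 := ⟨_, rfl⟩
  have hTR : (T : ℝ) = (l : ℝ) ^ a := by rw [hT]; push_cast; rfl
  have hTpos : (0 : ℝ) < T := by exact_mod_cast hT1
  have hspos : (0 : ℝ) < s := by rw [hs]; positivity
  have hlogT : Real.log (2 * (T : ℝ) ^ 4) = Real.log 2 + 4 * a * Real.log l := by
    rw [Real.log_mul (by norm_num) (by positivity), hTR, ← pow_mul, Real.log_pow]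
    push_cast
    ring
  have hgrowth : ∀ t : ℕ, 2 * T ^ 4 * s ≤ (2 * T ^ 4) ^ (3 ^ t) → 2 * g ≤ t := by
    intro t ht
    by_contra hcon
    rw [not_le, hg] at hcon
    have h1 : (2 * (T : ℝ) ^ 4) * s ≤ (2 * (T : ℝ) ^ 4) ^ (3 ^ t) := by exact_mod_cast ht
    have h2 : Real.log ((2 * (T : ℝ) ^ 4) * s) ≤ Real.log ((2 * (T : ℝ) ^ 4) ^ (3 ^ t)) :=
      Real.log_le_log (by positivity) h1
    rw [Real.log_mul (by positivity) (by positivity), Real.log_pow, hlogT] at h2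
    have h3 : ((l : ℝ) - 1) / 2 * Real.log 2 ≤ Real.log s := by
      have h4 : (2 : ℝ) ^ l ≤ 2 * (s : ℝ) ^ 2 := by
        have h5 : 2 ^ l ≤ 2 * s ^ 2 := by omega
        exact_mod_cast h5
      have h5 := Real.log_le_log (by positivity) h4
      rw [Real.log_pow, Real.log_mul (by norm_num) (by positivity), Real.log_pow] at h5
      push_cast at h5
      linarith
    have h4 : ((3 ^ t : ℕ) : ℝ) ≤ Real.exp (Real.log 3 / 2 * Real.log l) := by
      push_cast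
      have h5 : (3 : ℝ) ^ t = Real.exp (t * Real.log 3) := by
        rw [mul_comm, Real.exp_mul, Real.exp_log (by norm_num), Real.rpow_natCast]
      rw [h5]
      apply Real.exp_le_exp.mpr
      have h6 : 0 ≤ Real.log 3 := Real.log_nonneg (by norm_num)
      nlinarith
    have h5 : 0 ≤ Real.log 2 + 4 * a * Real.log l := by
      have : 0 ≤ Real.log 2 := Real.log_nonneg (by norm_num)
      positivity
    have h6 : ((3 ^ t : ℕ) : ℝ) * (Real.log 2 + 4 * a * Real.log l) ≤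
        Real.exp (Real.log 3 / 2 * Real.log l) * (Real.log 2 + 4 * a * Real.log l) :=
      mul_le_mul_of_nonneg_right h4 h5
    linarith
  have hB1R : Real.exp (8 * a + 8) ≤ (B₁ : ℝ) := by
    rw [hB₁]
    push_cast
    have := Nat.le_ceil (Real.exp (8 * a + 8))
    linarith
  have hM : ((16 * T ^ 2 * (2 * l) : ℕ) : ℝ) ≤ Real.exp (g * Real.log B₁) := by
    have h1 : 8 * (a : ℝ) + 8 ≤ Real.log B₁ := by
      rw [Real.le_log_iff_exp_le (lt_of_lt_of_le (Real.exp_pos _) hB1R)]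
      exact hB1R
    have h2 : ((2 * a + 2 : ℕ) : ℝ) * Real.log l ≤ g * Real.log B₁ := by
      rw [hg]
      push_cast
      nlinarith
    have h3 : (l : ℝ) ^ (2 * a + 2) ≤ Real.exp (g * Real.log B₁) := by
      calc (l : ℝ) ^ (2 * a + 2) = Real.exp (((2 * a + 2 : ℕ) : ℝ) * Real.log l) := by
            rw [mul_comm ((2 * a + 2 : ℕ) : ℝ), Real.exp_mul, Real.exp_log hlpos, Real.rpow_natCast]
        _ ≤ _ := Real.exp_le_exp.mpr h2
    refine le_trans ?_ h3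
    have h4 : 16 * T ^ 2 * (2 * l) ≤ l ^ (2 * a + 2) := by
      calc 16 * T ^ 2 * (2 * l) = 32 * (T ^ 2 * l) := by ring
        _ ≤ l * (T ^ 2 * l) := Nat.mul_le_mul_right _ hl32
        _ = l ^ (2 * a + 2) := by rw [hT]; ring
    exact_mod_cast h4
  have hP : Params Q B₁ B₂ X l s T g :=
    { hQ3 := hQ3, hQp := hQp, hQ1 := hQ1, hQ2 := hQ2, hB1 := by omega, hB2 := hB2, hl := by omega,
      hX := hXl, hs := by omega, hXs := hXs, hsX := hsX, hT := hT1, hsT := hsT, hLT := hLT,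
      hgrowth := hgrowth, hg0 := by rw [hg]; positivity, hM := hM }
  have hmain := hP.block hS hu1
  -- the three terms
  have hlA : (l : ℝ) ^ a = (l : ℝ) ^ 6 * (l : ℝ) ^ A := by rw [ha, pow_add]; ring
  have hl6 : (1 : ℝ) ≤ (l : ℝ) ^ 6 := one_le_pow₀ (by linarith)
  have hlApos : (0 : ℝ) < (l : ℝ) ^ A := by positivity
  have e1 : ((2 * l + 1) * (l + 1)) * (18 * (2 * l) ^ 4 * s / T) ≤ 1728 * (s / (l : ℝ) ^ A) := by
    rw [hTR, hlA]
    have h1 : (2 * (l : ℝ) + 1) * (l + 1) ≤ 6 * (l : ℝ) ^ 2 := by nlinarith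
    calc ((2 * (l : ℝ) + 1) * (l + 1)) * (18 * (2 * l) ^ 4 * s / ((l : ℝ) ^ 6 * (l : ℝ) ^ A))
        ≤ (6 * (l : ℝ) ^ 2) * (18 * (2 * l) ^ 4 * s / ((l : ℝ) ^ 6 * (l : ℝ) ^ A)) :=
          mul_le_mul_of_nonneg_right h1 (by positivity)
      _ = _ := by field_simp; ring
  have e2 : (s * T) * Real.exp ((u - 1) * ∑ p ∈ thin Q X, 1 / (p : ℝ) - g * Real.log u) ≤
      c0 * (s / (l : ℝ) ^ A) := by
    have h1 := sum_thin hQ3 hQp (by omega : 1 ≤ i₀) hQi hl128 hXl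
    rw [← hG, ← hCQ] at h1
    have h2 : (u - 1) * (342 / G) ≤ 1 / 2 := by
      rw [mul_div_assoc', div_le_iff₀ hGpos]
      nlinarith
    have h3 : (u - 1) * ∑ p ∈ thin Q X, 1 / (p : ℝ) - g * Real.log u ≤
        (1 / 2 + (u - 1) * CQ) - ((2 * a : ℕ) : ℝ) * Real.log l := by
      have h4 : Real.log u = 4 * (2 * a + 1) := by rw [hu, Real.log_exp]
      rw [h4, hg]
      have h5 : (u - 1) * ∑ p ∈ thin Q X, 1 / (p : ℝ) ≤
          (u - 1) * ((342 / G) * (1 + Real.log l) + CQ) :=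
        mul_le_mul_of_nonneg_left h1 (by linarith)
      have h6 : ((u - 1) * (342 / G)) * (1 + Real.log l) ≤ 1 / 2 * (1 + Real.log l) :=
        mul_le_mul_of_nonneg_right h2 (by linarith)
      push_cast
      nlinarith
    have h4 : Real.exp ((u - 1) * ∑ p ∈ thin Q X, 1 / (p : ℝ) - g * Real.log u) ≤
        c0 / (l : ℝ) ^ (2 * a) := by
      refine (Real.exp_le_exp.mpr h3).trans (le_of_eq ?_)
      rw [Real.exp_sub, ← hc0]
      congr 1
      rw [mul_comm, Real.exp_mul, Real.exp_log hlpos, Real.rpow_natCast]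
    calc (s * T) * Real.exp ((u - 1) * ∑ p ∈ thin Q X, 1 / (p : ℝ) - g * Real.log u)
        ≤ (s * T) * (c0 / (l : ℝ) ^ (2 * a)) := mul_le_mul_of_nonneg_left h4 (by positivity)
      _ = c0 * (s / (l : ℝ) ^ a) := by
          rw [hTR, two_mul, pow_add]
          field_simp
      _ ≤ c0 * (s / (l : ℝ) ^ A) := by
          apply mul_le_mul_of_nonneg_left _ hc0pos.le
          apply div_le_div_of_nonneg_left hspos.le hlApos
          rw [hlA]
          nlinarith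
  have e3 : (2 * l * s / T) * (Nat.log 2 (16 * T ^ 2 * (2 * l) * B₂) + 1) ^ #Q ≤
      2 * (s / (l : ℝ) ^ A) := by
    have h1 : (((Nat.log 2 (16 * T ^ 2 * (2 * l) * B₂) : ℕ) : ℝ) + 1) ^ #Q ≤ l := by
      refine le_trans ?_ E3
      apply pow_le_pow_left₀ (by positivity)
      have h2 : 0 < 16 * T ^ 2 * (2 * l) * B₂ := by positivity
      have h3 : 2 ^ Nat.log 2 (16 * T ^ 2 * (2 * l) * B₂) ≤ 16 * T ^ 2 * (2 * l) * B₂ :=
        Nat.pow_log_le_self 2 (by omega)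
      have h4 : (2 : ℝ) ^ Nat.log 2 (16 * T ^ 2 * (2 * l) * B₂) ≤
          32 * B₂ * (l : ℝ) ^ (2 * a + 1) := by
        have h5 : ((2 ^ Nat.log 2 (16 * T ^ 2 * (2 * l) * B₂) : ℕ) : ℝ) ≤
            ((16 * T ^ 2 * (2 * l) * B₂ : ℕ) : ℝ) := by exact_mod_cast h3
        push_cast at h5
        rw [hTR] at h5
        refine h5.trans (le_of_eq ?_)
        ring
      have hB2R : (2 : ℝ) ≤ B₂ := by exact_mod_cast hB2
      have h5 := Real.log_le_log (by positivity) h4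
      rw [Real.log_pow, Real.log_mul (by positivity) (by positivity), Real.log_pow] at h5
      have h6 := Real.log_two_gt_d9
      have h7 : 0 ≤ ((Nat.log 2 (16 * T ^ 2 * (2 * l) * B₂) : ℕ) : ℝ) := by positivity
      push_cast at h5
      nlinarith
    calc (2 * l * s / T) * (((Nat.log 2 (16 * T ^ 2 * (2 * l) * B₂) : ℕ) : ℝ) + 1) ^ #Q
        ≤ (2 * l * s / T) * l := mul_le_mul_of_nonneg_left h1 (by positivity)
      _ = 2 * (s / (l : ℝ) ^ A) * ((l : ℝ) ^ 2 / (l : ℝ) ^ 6) := by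
          rw [hTR, hlA]
          field_simp
      _ ≤ 2 * (s / (l : ℝ) ^ A) * 1 := by
          apply mul_le_mul_of_nonneg_left _ (by positivity)
          rw [div_le_one (by positivity)]
          exact pow_le_pow_right₀ (by linarith) (by norm_num)
      _ = _ := by ring
  have hsR : (s : ℝ) ≤ 2 * Real.sqrt X := by
    have h1 : (s : ℝ) ^ 2 ≤ 2 * X := by exact_mod_cast hsX
    apply le_of_sq_le_sq _ (by positivity)
    rw [mul_pow, Real.sq_sqrt (by positivity)]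
    have : (0 : ℝ) ≤ X := by positivity
    linarith
  calc (#S : ℝ) ≤ 1728 * (s / (l : ℝ) ^ A) + c0 * (s / (l : ℝ) ^ A) + 2 * (s / (l : ℝ) ^ A) := by
        linarith
    _ = (1730 + c0) * (s / (l : ℝ) ^ A) := by ring
    _ ≤ (1730 + c0) * ((2 * Real.sqrt X) / (l : ℝ) ^ A) := by
        apply mul_le_mul_of_nonneg_left _ (by positivity)
        apply div_le_div_of_nonneg_right hsR hlApos.le
    _ = _ := by ring

end Pool.Agent.Helper6.LehmerCount
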