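import Mathlib
import Pool.Agent.Helper6.LehmerCount.Final

/-!
Counting Lehmer numbers, part 10: summation over dyadic blocks.
-/

namespace Pool.Agent.Helper6.LehmerCount

open Finset Filter Pool.Agent.Helper6.Lehmer

open scoped Classical in
/-- the number of Lehmer numbers up to `X` -/
noncomputable def NL (X : ℕ) : ℕ := #{n ∈ Icc 1 X | IsLehmer n}

theorem NL_le (X : ℕ) : NL X ≤ X := by
  classical
  unfold NL
  refine (Finset.card_filter_le _ _).trans ?_
  rw [Nat.card_Icc, Nat.add_sub_cancel]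

theorem pow_pred_ge (A l : ℕ) (hl : 6 * A ≤ l) (hl1 : 1 ≤ l) :
    5 / 6 * (l : ℝ) ^ A ≤ ((l : ℝ) - 1) ^ A := by
  have hlpos : (0 : ℝ) < l := by exact_mod_cast hl1
  have hl1' : (1 : ℝ) ≤ l := by exact_mod_cast hl1
  have h1 := one_add_mul_le_pow (R := ℝ) (a := -(1 / (l : ℝ))) (by
    have : 1 / (l : ℝ) ≤ 1 := by rw [div_le_one hlpos]; exact hl1'
    linarith) A
  have h2 : (A : ℝ) * (1 / l) ≤ 1 / 6 := by
    rw [mul_one_div, div_le_iff₀ hlpos]
    have : (6 : ℝ) * A ≤ l := by exact_mod_cast hl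
    linarith
  have h3 : (5 : ℝ) / 6 ≤ (1 + -(1 / (l : ℝ))) ^ A := by linarith
  calc 5 / 6 * (l : ℝ) ^ A ≤ (1 + -(1 / (l : ℝ))) ^ A * (l : ℝ) ^ A :=
        mul_le_mul_of_nonneg_right h3 (by positivity)
    _ = ((l : ℝ) - 1) ^ A := by
        rw [← mul_pow]
        congr 1
        field_simp
        ring

theorem NL_bound (A : ℕ) : ∃ C : ℝ, 0 ≤ C ∧ ∀ X : ℕ, 1 ≤ X →
    (NL X : ℝ) ≤ C * Real.sqrt X / ((Nat.log 2 X + 1 : ℕ) : ℝ) ^ A := by
  classical
  obtain ⟨C, l₀, hC, hblock⟩ := block_final A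
  obtain ⟨l₁, hl₁⟩ : ∃ l₁, l₁ = max l₀ (max (6 * A) 2) := ⟨_, rfl⟩
  refine ⟨7 * C + 2 ^ l₁ * (l₁ : ℝ) ^ A, by positivity, ?_⟩
  intro X
  induction X using Nat.strong_induction_on with
  | _ X ih =>
    intro hX
    obtain ⟨l, hl⟩ : ∃ l, l = Nat.log 2 X + 1 := ⟨_, rfl⟩
    rw [← hl]
    have hXl : X < 2 ^ l := by rw [hl]; exact Nat.lt_pow_succ_log_self (by norm_num) X
    have hXl2 : 2 ^ l ≤ 2 * X := by
      rw [hl, pow_succ]
      have := Nat.pow_log_le_self 2 (by omega : X ≠ 0)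
      omega
    have hlpos : (0 : ℝ) < l := by
      have : 0 < l := by omega
      exact_mod_cast this
    have hXR : (1 : ℝ) ≤ X := by exact_mod_cast hX
    have hsq1 : (1 : ℝ) ≤ Real.sqrt X := by rw [Real.one_le_sqrt]; exact hXR
    rcases Nat.lt_or_ge l l₁ with hlt | hge
    · have h1 : (NL X : ℝ) ≤ 2 ^ l₁ := by
        have h2 : NL X ≤ 2 ^ l₁ :=
          (NL_le X).trans (hXl.le.trans (Nat.pow_le_pow_right (by norm_num) hlt.le))
        exact_mod_cast h2
      rw [le_div_iff₀ (by positivity)]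
      have h2 : (l : ℝ) ^ A ≤ (l₁ : ℝ) ^ A := pow_le_pow_left₀ hlpos.le (by exact_mod_cast hlt.le) A
      calc (NL X : ℝ) * (l : ℝ) ^ A ≤ 2 ^ l₁ * (l₁ : ℝ) ^ A := by gcongr
        _ ≤ 7 * C + 2 ^ l₁ * (l₁ : ℝ) ^ A := by linarith
        _ = (7 * C + 2 ^ l₁ * (l₁ : ℝ) ^ A) * 1 := by ring
        _ ≤ (7 * C + 2 ^ l₁ * (l₁ : ℝ) ^ A) * Real.sqrt X :=
            mul_le_mul_of_nonneg_left hsq1 (by positivity)
    · have hl2 : 2 ≤ l := le_trans (le_trans (le_max_right _ _) (le_max_right _ _)) (hl₁ ▸ hge)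
      have hl6 : 6 * A ≤ l := le_trans (le_trans (le_max_left _ _) (le_max_right _ _)) (hl₁ ▸ hge)
      have hll0 : l₀ ≤ l := le_trans (le_max_left _ _) (hl₁ ▸ hge)
      have hX2 : 2 ≤ X := by
        by_contra hcon
        have hX1 : X = 1 := by omega
        rw [hX1] at hl
        simp at hl
        omega
      have hlog : Nat.log 2 (X / 2) + 1 = l - 1 := by
        rw [Nat.log_div_base, hl]
        have : 1 ≤ Nat.log 2 X := by
          have := Nat.log_pos (b := 2) (by norm_num) hX2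
          omega
        omega
      have h1 := ih (X / 2) (by omega) (by omega)
      rw [hlog] at h1
      obtain ⟨S, hS⟩ : ∃ S : Finset ℕ, S = {n ∈ Icc 1 X | IsLehmer n ∧ X < 2 * n} := ⟨_, rfl⟩
      have h2 := hblock X l S hXl hXl2 hll0 (by
        intro n hn
        rw [hS, mem_filter, mem_Icc] at hn
        exact ⟨hn.2.1, hn.1.2, hn.2.2⟩)
      have h3 : NL X ≤ NL (X / 2) + #S := by
        unfold NL
        rw [hS]
        refine le_trans (Finset.card_le_card ?_) (Finset.card_union_le _ _)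
        intro n hn
        rw [mem_filter, mem_Icc] at hn
        rw [mem_union, mem_filter, mem_filter, mem_Icc, mem_Icc]
        rcases Nat.lt_or_ge X (2 * n) with h4 | h4
        · exact Or.inr ⟨hn.1, hn.2, h4⟩
        · exact Or.inl ⟨⟨hn.1.1, by omega⟩, hn.2⟩
      have h3' : (NL X : ℝ) ≤ NL (X / 2) + #S := by exact_mod_cast h3
      obtain ⟨C₁, hC₁⟩ : ∃ C₁ : ℝ, C₁ = 7 * C + 2 ^ l₁ * (l₁ : ℝ) ^ A := ⟨_, rfl⟩
      rw [← hC₁] at h1 ⊢
      have hC₁7 : 7 * C ≤ C₁ := by rw [hC₁]; linarith [show (0 : ℝ) ≤ 2 ^ l₁ * (l₁ : ℝ) ^ A by positivity]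
      have hC₁0 : 0 ≤ C₁ := by linarith
      have hcast : ((l - 1 : ℕ) : ℝ) = (l : ℝ) - 1 := by
        rw [Nat.cast_sub (by omega)]
        norm_num
      rw [hcast] at h1
      have h4 := pow_pred_ge A l hl6 (by omega)
      have hlA : (0 : ℝ) < (l : ℝ) ^ A := by positivity
      have h5 : Real.sqrt ((X / 2 : ℕ) : ℝ) ≤ 7072 / 10000 * Real.sqrt X := by
        apply Real.sqrt_le_iff.mpr
        refine ⟨by positivity, ?_⟩
        rw [mul_pow, Real.sq_sqrt (by positivity)]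
        have h6 : ((X / 2 : ℕ) : ℝ) ≤ X / 2 := Nat.cast_div_le
        linarith
      have h6 : C₁ * Real.sqrt ((X / 2 : ℕ) : ℝ) / ((l : ℝ) - 1) ^ A ≤
          C₁ * (7072 / 10000 * Real.sqrt X) / (5 / 6 * (l : ℝ) ^ A) := by
        gcongr
      have h7 : C₁ * (7072 / 10000 * Real.sqrt X) / (5 / 6 * (l : ℝ) ^ A) =
          (8486400 / 10000000 * C₁) * (Real.sqrt X / (l : ℝ) ^ A) := by
        field_simp
        ring
      have h8 : C * Real.sqrt X / (l : ℝ) ^ A = C * (Real.sqrt X / (l : ℝ) ^ A) := by ring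
      have h9 : 0 ≤ Real.sqrt X / (l : ℝ) ^ A := by positivity
      rw [h7] at h6
      rw [h8] at h2
      calc (NL X : ℝ) ≤ (8486400 / 10000000 * C₁) * (Real.sqrt X / (l : ℝ) ^ A) +
            C * (Real.sqrt X / (l : ℝ) ^ A) := by linarith
        _ = (8486400 / 10000000 * C₁ + C) * (Real.sqrt X / (l : ℝ) ^ A) := by ring
        _ ≤ C₁ * (Real.sqrt X / (l : ℝ) ^ A) := by
            apply mul_le_mul_of_nonneg_right _ h9
            linarith
        _ = _ := by ring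

/-- The number of Lehmer numbers up to `X` is `O(√X / (log X) ^ A)` for every `A`. -/
theorem NL_bound' (A : ℕ) : ∃ C : ℝ, ∀ X : ℕ, 2 ≤ X →
    (NL X : ℝ) ≤ C * Real.sqrt X / Real.log X ^ A := by
  obtain ⟨C, hC, h⟩ := NL_bound A
  refine ⟨C, ?_⟩
  intro X hX
  refine (h X (by omega)).trans ?_
  have hXR : (2 : ℝ) ≤ X := by exact_mod_cast hX
  have hlog : 0 < Real.log X := Real.log_pos (by linarith)
  have h1 : Real.log X ≤ ((Nat.log 2 X + 1 : ℕ) : ℝ) := by
    have h2 : X < 2 ^ (Nat.log 2 X + 1) := Nat.lt_pow_succ_log_self (by norm_num) X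
    have h3 : (X : ℝ) ≤ 2 ^ (Nat.log 2 X + 1) := by exact_mod_cast h2.le
    have h4 := Real.log_le_log (by linarith) h3
    rw [Real.log_pow] at h4
    have h5 : Real.log 2 ≤ 1 := by linarith [Real.log_two_lt_d9]
    have h6 : (0 : ℝ) ≤ ((Nat.log 2 X + 1 : ℕ) : ℝ) := by positivity
    nlinarith
  apply div_le_div_of_nonneg_left (by positivity) (by positivity)
  exact pow_le_pow_left₀ hlog.le h1 A

end Pool.Agent.Helper6.LehmerCount
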